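import Mathlib

/-!
Randomised online algorithms for partial edge colouring: the notions of the problem.
-/

open scoped ENNReal BigOperators

namespace Pool.Agent.KS6_81.OE

/-- A history on the vertex set `V`: the edges revealed so far together with the irrevocable
decision for each of them, a colour or `none` if the edge was left uncoloured. The most recent edge
is listed first. -/
abbrev Hist (V : Type) (Δ : ℕ) : Type := List (Sym2 V × Option (Fin Δ))

/-- A randomised online algorithm for partial edge colouring with `Δ` colours on the vertex set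
`V`. -/
structure OnlineAlgorithm (V : Type) (Δ : ℕ) where
  /-- The law of the decision for the new edge, given the history. -/
  law : Hist V Δ → Sym2 V → PMF (Option (Fin Δ))
  /-- An edge never gets the colour of an earlier edge with which it shares an endpoint. -/
  proper : ∀ (h : Hist V Δ) (e : Sym2 V) (c : Fin Δ), law h e (some c) ≠ 0 →
    ∀ e' : Sym2 V, (e', some c) ∈ h → ∀ w : V, ¬ (w ∈ e ∧ w ∈ e')

/-- The law of the history when the edges `es` have been revealed; the last edge to arrive is
listed first. -/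
noncomputable def OnlineAlgorithm.run {V : Type} {Δ : ℕ} (A : OnlineAlgorithm V Δ) :
    List (Sym2 V) → PMF (Hist V Δ)
  | [] => PMF.pure []
  | e :: es => (A.run es).bind fun h => (A.law h e).map fun o => (e, o) :: h

/-- The probability that the edge `e` gets a colour when the edges `es` are revealed; the last
edge to arrive is listed first. -/
noncomputable def OnlineAlgorithm.colourProb {V : Type} {Δ : ℕ} (A : OnlineAlgorithm V Δ)
    (es : List (Sym2 V)) (e : Sym2 V) : ℝ≥0∞ :=
  (A.run es).toOuterMeasure {h | ∃ c : Fin Δ, (e, some c) ∈ h}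

/-- `G` has maximum degree at most `Δ` and girth at least `L`, and `es` lists the edges of `G` in
an order of arrival (the last edge to arrive first). -/
def IsInput (Δ L : ℕ) {n : ℕ} (G : SimpleGraph (Fin n)) (es : List (Sym2 (Fin n))) : Prop :=
  (∀ v, (G.neighborSet v).ncard ≤ Δ) ∧ (L : ℕ∞) ≤ G.egirth ∧ es.Nodup ∧
    ∀ e, e ∈ es ↔ e ∈ G.edgeSet

/-- The number `q_A(Δ, L)`: the infimum of the probability that `e` gets a colour, over all inputs
and all edges `e`. (An algorithm knows the vertex set, so it is a family indexed by the number of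
vertices.) -/
noncomputable def q {Δ : ℕ} (A : ∀ n, OnlineAlgorithm (Fin n) Δ) (L : ℕ) : ℝ≥0∞ :=
  ⨅ (n : ℕ) (G : SimpleGraph (Fin n)) (es : List (Sym2 (Fin n))) (_ : IsInput Δ L G es)
    (e : Sym2 (Fin n)) (_ : e ∈ G.edgeSet), (A n).colourProb es e

/-- The number `p(Δ, L) = sup_A q_A(Δ, L)`. -/
noncomputable def p (Δ L : ℕ) : ℝ≥0∞ := ⨆ A : ∀ n, OnlineAlgorithm (Fin n) Δ, q A L

/-! ### Expectations -/

section mean

variable {V : Type} {Δ : ℕ}

/-- expectation of a function of the history -/
noncomputable def OnlineAlgorithm.mean (A : OnlineAlgorithm V Δ) :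
    List (Sym2 V) → (Hist V Δ → ℝ) → ℝ
  | [], f => f []
  | e :: es, f => A.mean es fun h => ∑ o, (A.law h e o).toReal * f ((e, o) :: h)

theorem tsum_bind {α β : Type} (p : PMF α) (g : α → PMF β) (f : β → ℝ≥0∞) :
    ∑' b, (p.bind g) b * f b = ∑' a, p a * ∑' b, g a b * f b := by
  simp only [PMF.bind_apply]
  calc ∑' b, (∑' a, p a * g a b) * f b = ∑' b, ∑' a, p a * g a b * f b := by
        refine tsum_congr fun b => ?_
        rw [ENNReal.tsum_mul_right]
    _ = ∑' a, ∑' b, p a * g a b * f b := ENNReal.tsum_comm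
    _ = _ := by
        refine tsum_congr fun a => ?_
        rw [← ENNReal.tsum_mul_left]
        exact tsum_congr fun b => by ring

theorem tsum_pure {α : Type} (a : α) (f : α → ℝ≥0∞) : ∑' b, (PMF.pure a) b * f b = f a := by
  rw [tsum_eq_single a]
  · simp
  · intro b hb
    simp [PMF.pure_apply, hb]

theorem tsum_map {α β : Type} (p : PMF α) (φ : α → β) (f : β → ℝ≥0∞) :
    ∑' b, (p.map φ) b * f b = ∑' a, p a * f (φ a) := by
  unfold PMF.map
  rw [tsum_bind]
  refine tsum_congr fun a => ?_
  rw [Function.comp_apply, tsum_pure]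

theorem run_tsum (A : OnlineAlgorithm V Δ) (es : List (Sym2 V)) (f : Hist V Δ → ℝ)
    (hf : ∀ h, 0 ≤ f h) :
    ∑' h, A.run es h * ENNReal.ofReal (f h) = ENNReal.ofReal (A.mean es f) := by
  induction es generalizing f with
  | nil => exact tsum_pure _ _
  | cons e es ih =>
    simp only [OnlineAlgorithm.run, OnlineAlgorithm.mean]
    rw [tsum_bind, ← ih _ fun h => Finset.sum_nonneg fun o _ =>
      mul_nonneg ENNReal.toReal_nonneg (hf _)]
    refine tsum_congr fun h => ?_
    congr 1
    rw [tsum_map, tsum_fintype,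
      ENNReal.ofReal_sum_of_nonneg fun o _ => mul_nonneg ENNReal.toReal_nonneg (hf _)]
    refine Finset.sum_congr rfl fun o _ => ?_
    rw [ENNReal.ofReal_mul ENNReal.toReal_nonneg, ENNReal.ofReal_toReal]
    exact (A.law h e).apply_ne_top o

/-- the indicator of the event that `e` has a colour -/
noncomputable def ind (e : Sym2 V) (h : Hist V Δ) : ℝ :=
  open Classical in if ∃ c : Fin Δ, (e, some c) ∈ h then 1 else 0

theorem ind_nonneg (e : Sym2 V) (h : Hist V Δ) : 0 ≤ ind e h := by
  unfold ind; split_ifs <;> norm_num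

theorem ind_le_one (e : Sym2 V) (h : Hist V Δ) : ind e h ≤ 1 := by
  unfold ind; split_ifs <;> norm_num

theorem colourProb_eq (A : OnlineAlgorithm V Δ) (es : List (Sym2 V)) (e : Sym2 V) :
    A.colourProb es e = ENNReal.ofReal (A.mean es (ind e)) := by
  rw [← run_tsum A es _ (ind_nonneg e)]
  unfold OnlineAlgorithm.colourProb
  rw [PMF.toOuterMeasure_apply]
  refine tsum_congr fun h => ?_
  unfold ind
  by_cases hh : ∃ c : Fin Δ, (e, some c) ∈ h
  · rw [Set.indicator_of_mem (by exact hh), if_pos hh]; simp
  · rw [Set.indicator_of_notMem (by exact hh), if_neg hh]; simp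

theorem law_sum (A : OnlineAlgorithm V Δ) (h : Hist V Δ) (e : Sym2 V) :
    ∑ o, (A.law h e o).toReal = 1 := by
  have h1 := (A.law h e).tsum_coe
  rw [tsum_fintype] at h1
  rw [← ENNReal.toReal_sum fun o _ => (A.law h e).apply_ne_top o, h1]
  simp

theorem mean_add (A : OnlineAlgorithm V Δ) (es : List (Sym2 V)) (f g : Hist V Δ → ℝ) :
    A.mean es (fun h => f h + g h) = A.mean es f + A.mean es g := by
  induction es generalizing f g with
  | nil => rfl
  | cons e es ih =>
    simp only [OnlineAlgorithm.mean]
    rw [← ih]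
    congr 1
    ext h
    rw [← Finset.sum_add_distrib]
    exact Finset.sum_congr rfl fun o _ => by ring

theorem mean_smul (A : OnlineAlgorithm V Δ) (es : List (Sym2 V)) (a : ℝ) (f : Hist V Δ → ℝ) :
    A.mean es (fun h => a * f h) = a * A.mean es f := by
  induction es generalizing f with
  | nil => rfl
  | cons e es ih =>
    simp only [OnlineAlgorithm.mean]
    rw [← ih]
    congr 1
    ext h
    rw [Finset.mul_sum]
    exact Finset.sum_congr rfl fun o _ => by ring

theorem mean_sub (A : OnlineAlgorithm V Δ) (es : List (Sym2 V)) (f g : Hist V Δ → ℝ) :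
    A.mean es (fun h => f h - g h) = A.mean es f - A.mean es g := by
  have h1 : (fun h => f h - g h) = fun h => f h + (-1) * g h := by ext h; ring
  rw [h1, mean_add, mean_smul]; ring

theorem mean_const (A : OnlineAlgorithm V Δ) (es : List (Sym2 V)) (a : ℝ) :
    A.mean es (fun _ => a) = a := by
  induction es with
  | nil => rfl
  | cons e es ih =>
    simp only [OnlineAlgorithm.mean]
    have : (fun h : Hist V Δ => ∑ o, (A.law h e o).toReal * a) = fun _ => a := by
      ext h
      rw [← Finset.sum_mul, law_sum, one_mul]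
    rw [this, ih]

theorem mean_sum (A : OnlineAlgorithm V Δ) {ι : Type} (s : Finset ι) (es : List (Sym2 V))
    (f : ι → Hist V Δ → ℝ) :
    A.mean es (fun h => ∑ i ∈ s, f i h) = ∑ i ∈ s, A.mean es (f i) := by
  classical
  induction s using Finset.induction_on with
  | empty => simp [mean_const]
  | insert i s hi ih =>
    rw [Finset.sum_insert hi, ← ih, ← mean_add]
    congr 1
    ext h
    rw [Finset.sum_insert hi]

/-- the histories which can occur -/
def Val (A : OnlineAlgorithm V Δ) : List (Sym2 V) → Hist V Δ → Prop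
  | [], h => h = []
  | e :: es, h => ∃ h' o, h = (e, o) :: h' ∧ Val A es h' ∧ A.law h' e o ≠ 0

theorem mean_mono (A : OnlineAlgorithm V Δ) (es : List (Sym2 V)) (f g : Hist V Δ → ℝ)
    (hfg : ∀ h, Val A es h → f h ≤ g h) : A.mean es f ≤ A.mean es g := by
  induction es generalizing f g with
  | nil => exact hfg [] rfl
  | cons e es ih =>
    simp only [OnlineAlgorithm.mean]
    apply ih
    intro h hh
    refine Finset.sum_le_sum fun o _ => ?_
    by_cases ho : A.law h e o = 0
    · rw [ho]; simp
    · exact mul_le_mul_of_nonneg_left (hfg _ ⟨h, o, rfl, hh, ho⟩) ENNReal.toReal_nonneg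

theorem mean_cons_indep (A : OnlineAlgorithm V Δ) (e : Sym2 V) (es : List (Sym2 V))
    (f g : Hist V Δ → ℝ) (hfg : ∀ o h, f ((e, o) :: h) = g h) :
    A.mean (e :: es) f = A.mean es g := by
  simp only [OnlineAlgorithm.mean]
  congr 1
  ext h
  simp only [hfg]
  rw [← Finset.sum_mul, law_sum, one_mul]

theorem ind_cons_ne {a e : Sym2 V} (hne : e ≠ a) (o : Option (Fin Δ)) (h : Hist V Δ) :
    ind e ((a, o) :: h) = ind e h := by
  unfold ind
  have : (∃ c : Fin Δ, (e, some c) ∈ ((a, o) :: h : Hist V Δ)) ↔ ∃ c : Fin Δ, (e, some c) ∈ h := by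
    constructor
    · rintro ⟨c, hc⟩
      rcases List.mem_cons.mp hc with hc | hc
      · exact absurd (Prod.mk.inj hc).1 hne
      · exact ⟨c, hc⟩
    · rintro ⟨c, hc⟩
      exact ⟨c, List.mem_cons_of_mem _ hc⟩
  by_cases h1 : ∃ c : Fin Δ, (e, some c) ∈ h
  · rw [if_pos (this.mpr h1), if_pos h1]
  · rw [if_neg (fun h2 => h1 (this.mp h2)), if_neg h1]

/-- later edges do not matter -/
theorem mean_ind_append (A : OnlineAlgorithm V Δ) (es' es : List (Sym2 V)) (e : Sym2 V)
    (he : e ∉ es') : A.mean (es' ++ es) (ind e) = A.mean es (ind e) := by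
  induction es' with
  | nil => rfl
  | cons a es' ih =>
    rw [List.cons_append, mean_cons_indep A a (es' ++ es) _ (ind e)]
    · exact ih fun h => he (List.mem_cons_of_mem _ h)
    · intro o h
      exact ind_cons_ne (by rintro rfl; exact he List.mem_cons_self) o h

end mean

end Pool.Agent.KS6_81.OE
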