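import Pool.Agent.KS6_81.OE.Bound
import Pool.Agent.KS6_81.OE.Defs

/-!
The algorithm: every edge is coloured with probability at least `1 - 9 Δ ^ (-1/4)`.
-/

open scoped ENNReal BigOperators
open Finset

namespace Pool.Agent.KS6_81.OE

variable {n Δ : ℕ} {D K : ℝ}

lemma B_zero {w : Wts n Δ} {e : Sym2 (Fin n)} {v : Fin n} (hv : v ∈ e) {c : Fin Δ}
    (h0 : w v c = 0) : B w e c = 0 := by
  obtain ⟨x, rfl⟩ := hv
  rw [B_mk, h0, zero_mul]

lemma pp_zero {w : Wts n Δ} {e : Sym2 (Fin n)} {v : Fin n} (hv : v ∈ e) {c : Fin Δ}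
    (h0 : w v c = 0) : pp D K w e c = 0 := by
  unfold pp
  split_ifs
  · rfl
  · rw [B_zero hv h0, zero_div]

lemma W_zero (h : Hist (Fin n) Δ) (e : Sym2 (Fin n)) (c : Fin Δ) (he : (e, some c) ∈ h)
    (w : Fin n) (hw : w ∈ e) : W D K h w c = 0 := by
  induction h with
  | nil => simp at he
  | cons a h ih =>
    obtain ⟨e', o⟩ := a
    simp only [W]
    unfold upd
    rcases List.mem_cons.mp he with h1 | h1
    · obtain ⟨rfl, rfl⟩ := Prod.mk.inj h1
      simp [hw]
    · rw [ih h1]
      split_ifs <;> simp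

/-- the algorithm -/
noncomputable def alg (hP : Par D K) : OnlineAlgorithm (Fin n) Δ where
  law h e := PMF.ofFintype (fun o => ENNReal.ofReal (wt D K (W D K h) e o)) (by
    rw [← ENNReal.ofReal_sum_of_nonneg fun o _ => wt_nonneg hP (W_bd hP h) e o, wt_sum,
      ENNReal.ofReal_one])
  proper := by
    intro h e c hne e' he' w hw
    apply hne
    rw [PMF.ofFintype_apply]
    show ENNReal.ofReal (pp D K (W D K h) e c) = 0
    rw [pp_zero hw.1 (W_zero h e' c he' w hw.2), ENNReal.ofReal_zero]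

lemma alg_mean (hP : Par D K) (es : List (Sym2 (Fin n))) (f : Hist (Fin n) Δ → ℝ) :
    (alg hP).mean es f = Ex D K es f := by
  induction es generalizing f with
  | nil => rfl
  | cons e es ih =>
    simp only [OnlineAlgorithm.mean, Ex]
    rw [ih]
    congr 1
    ext h
    refine Finset.sum_congr rfl fun o _ => ?_
    congr 1
    simp only [alg, PMF.ofFintype_apply]
    exact ENNReal.toReal_ofReal (wt_nonneg hP (W_bd hP h) e o)

lemma Ex_last (hP : Par D K) (es : List (Sym2 (Fin n))) (e : Sym2 (Fin n)) :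
    Ex D K es (fun h => ∑ c : Fin Δ, pp D K (W D K h) e c) ≤ Ex D K (e :: es) (ind (Δ := Δ) e) := by
  simp only [Ex]
  refine Ex_mono hP es _ _ fun h => ?_
  rw [Fintype.sum_option]
  have h1 : ∀ c : Fin Δ, wt D K (W D K h) e (some c) * ind e ((e, some c) :: h)
      = pp D K (W D K h) e c := by
    intro c
    have : ind e ((e, some c) :: h) = 1 := by
      unfold ind
      rw [if_pos ⟨c, List.mem_cons_self⟩]
    rw [this, mul_one]
    rfl
  simp only [h1]
  have h2 : 0 ≤ wt D K (W D K h) e none * ind e ((e, none) :: h) :=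
    mul_nonneg (wt_nonneg hP (W_bd hP h) e none) (ind_nonneg _ _)
  linarith

lemma dg_append (es' es : List (Sym2 (Fin n))) (u : Fin n) :
    dg (es' ++ es) u = dg es' u + dg es u := by
  induction es' with
  | nil => simp [dg]
  | cons a es' ih =>
    simp only [List.cons_append, dg, ih]
    ring

open Classical in
lemma dg_eq (es : List (Sym2 (Fin n))) (hes : es.Nodup) (u : Fin n) :
    dg es u = (es.toFinset.filter (fun e => u ∈ e)).card := by
  induction es with
  | nil => simp [dg]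
  | cons a es ih =>
    rw [List.nodup_cons] at hes
    simp only [dg, ih hes.2, List.toFinset_cons, Finset.filter_insert]
    split_ifs with h
    · rw [Finset.card_insert_of_notMem]
      simp [hes.1]
    · rfl

lemma dg_le {L : ℕ} (G : SimpleGraph (Fin n)) (es : List (Sym2 (Fin n)))
    (ho : IsInput Δ L G es) (u : Fin n) : dg es u ≤ Δ := by
  classical
  refine le_trans ?_ (ho.1 u)
  rw [dg_eq es ho.2.2.1 u]
  have h1 : (G.neighborSet u).ncard = (G.incidenceSet u).ncard := by
    rw [← Nat.card_coe_set_eq, ← Nat.card_coe_set_eq]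
    exact Nat.card_congr (G.incidenceSetEquivNeighborSet u).symm
  have h2 : ((es.toFinset.filter (fun e => u ∈ e) : Finset (Sym2 (Fin n))) : Set (Sym2 (Fin n)))
      = G.incidenceSet u := by
    ext e
    simp only [Finset.coe_filter, List.mem_toFinset, Set.mem_ofPred_eq, SimpleGraph.incidenceSet,
      ho.2.2.2 e]
  rw [h1, ← h2, Set.ncard_coe_finset]

/-- lower bound for the algorithm -/
lemma alg_bound {L : ℕ} (hP : Par D K) (r : ℝ) (hr : 2 * (K + K ^ 2) ≤ r)
    (hr2 : (Δ : ℝ) + r ≤ D - D / K) (G : SimpleGraph (Fin n))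
    (es : List (Sym2 (Fin n))) (ho : IsInput Δ L G es) (e : Sym2 (Fin n))
    (he : e ∈ G.edgeSet) :
    ENNReal.ofReal ((Δ : ℝ) / D - K ^ 2 * Δ / (4 * (D - Δ) * D) - 16 * K * Δ / r ^ 2)
      ≤ (alg (Δ := Δ) hP).colourProb es e := by
  classical
  rw [colourProb_eq]
  apply ENNReal.ofReal_le_ofReal
  have hmem : e ∈ es := (ho.2.2.2 e).mpr he
  obtain ⟨es', es'', hsplit⟩ := List.append_of_mem hmem
  have hnd := ho.2.2.1
  rw [hsplit] at hnd ⊢
  have hnd1 : (e :: es'').Nodup := (List.nodup_append.mp hnd).2.1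
  have hnot : e ∉ es' := fun h => (List.nodup_append.mp hnd).2.2 e h e List.mem_cons_self rfl
  rw [mean_ind_append _ es' _ e hnot, alg_mean]
  refine le_trans ?_ (Ex_last hP es'' e)
  have hd : ∀ a ∈ es'', ¬ a.IsDiag := by
    intro a ha
    have : a ∈ es := by rw [hsplit]; simp [ha]
    exact G.not_isDiag_of_mem_edgeSet ((ho.2.2.2 a).mp this)
  have hdeg : ∀ u, dg es'' u ≤ Δ := by
    intro u
    have h1 := dg_le G es ho u
    rw [hsplit, dg_append] at h1
    simp only [dg] at h1
    omega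
  induction e using Sym2.ind with
  | _ u v =>
    have huv : u ≠ v := G.ne_of_adj (by simpa using he)
    exact main_bound hP es'' u v huv hd hnd1 r hr hr2 (hdeg u) (hdeg v)

/-- every edge is coloured with probability at least `1 - 9 Δ ^ (-1/4)` -/
theorem upper (Δ : ℕ) (hΔ : 1 ≤ Δ) (L : ℕ) :
    ENNReal.ofReal (1 - 9 * (Δ : ℝ) ^ (-(1 / 4) : ℝ)) ≤ p Δ L := by
  have hΔ0 : (0 : ℝ) < Δ := by exact_mod_cast hΔ
  obtain ⟨x, hx⟩ : ∃ x : ℝ, x = (Δ : ℝ) ^ (-(1 / 4) : ℝ) := ⟨_, rfl⟩
  rw [← hx]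
  have hx0 : 0 < x := by rw [hx]; exact Real.rpow_pos_of_pos hΔ0 _
  have hx4 : x ^ 4 * Δ = 1 := by
    rw [hx, ← Real.rpow_natCast, ← Real.rpow_mul hΔ0.le]
    norm_num
    rw [Real.rpow_neg_one]
    field_simp
  by_cases hbig : 1 - 9 * x ≤ 0
  · rw [ENNReal.ofReal_of_nonpos hbig]
    exact zero_le
  · push Not at hbig
    have hx1 : 9 * x < 1 := by linarith
    have hΔx : (Δ : ℝ) = 1 / x ^ 4 := by field_simp; linarith
    -- `ε = 4 x`, `D = (1 + ε) Δ`, `K = 2 (1 + ε) / ε`, `r = ε Δ / 2`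
    obtain ⟨D, hD⟩ : ∃ D : ℝ, D = (1 + 4 * x) * Δ := ⟨_, rfl⟩
    obtain ⟨K, hK⟩ : ∃ K : ℝ, K = (1 + 4 * x) / (2 * x) := ⟨_, rfl⟩
    have hK1 : K ≤ 1 / x := by
      rw [hK, div_le_div_iff₀ (by positivity) hx0]
      nlinarith
    have hKge : 1 ≤ K := by
      rw [hK, le_div_iff₀ (by positivity)]; linarith
    have hKpos : 0 < K := by linarith
    have hK2 : K ^ 2 ≤ 1 / x ^ 2 := by
      calc K ^ 2 ≤ (1 / x) ^ 2 := pow_le_pow_left₀ hKpos.le hK1 2
        _ = 1 / x ^ 2 := by ring
    have hDΔ : (Δ : ℝ) ≤ D := by rw [hD]; nlinarith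
    have hDpos : 0 < D := by linarith
    have hx2 : x ^ 2 ≤ 1 / 81 := by nlinarith
    have hP : Par D K := by
      refine ⟨hDpos, hKge, ?_⟩
      have h1 : 2 * (1 / x ^ 2) ≤ (Δ : ℝ) := by
        rw [hΔx, mul_one_div, div_le_div_iff₀ (by positivity) (by positivity)]
        nlinarith [pow_pos hx0 2, pow_pos hx0 4]
      linarith
    obtain ⟨r, hr⟩ : ∃ r : ℝ, r = 2 * x * Δ := ⟨_, rfl⟩
    have hr2 : (Δ : ℝ) + r ≤ D - D / K := by
      have h1 : D / K = 2 * x * Δ := by
        rw [hD, hK]; field_simp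
      rw [h1, hD, hr]
      apply le_of_eq; ring
    have hr1 : 2 * (K + K ^ 2) ≤ r := by
      have h1 : K ≤ K ^ 2 := by nlinarith
      have h2 : 4 * (1 / x ^ 2) ≤ r := by
        rw [hr, hΔx]
        have : 2 * x * (1 / x ^ 4) = 2 / x ^ 3 := by field_simp
        rw [this, mul_one_div, div_le_div_iff₀ (by positivity) (by positivity)]
        nlinarith [pow_pos hx0 2, pow_pos hx0 3]
      linarith
    unfold p
    refine le_iSup_of_le (fun n => alg hP) ?_
    unfold q
    refine le_iInf fun n => le_iInf fun G => le_iInf fun es => le_iInf fun ho => le_iInf fun e =>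
      le_iInf fun he => ?_
    refine le_trans ?_ (alg_bound hP r hr1 hr2 G es ho e he)
    apply ENNReal.ofReal_le_ofReal
    have h1 : 1 - 4 * x ≤ (Δ : ℝ) / D := by
      rw [hD, le_div_iff₀ (by positivity)]
      nlinarith [mul_pos hx0 hΔ0]
    have h2 : K ^ 2 * Δ / (4 * (D - Δ) * D) ≤ x := by
      have h3 : D - Δ = 4 * x * Δ := by rw [hD]; ring
      rw [h3]
      calc K ^ 2 * Δ / (4 * (4 * x * Δ) * D) ≤ (1 / x ^ 2) * Δ / (4 * (4 * x * Δ) * Δ) := by
            apply div_le_div₀ (by positivity)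
            · exact mul_le_mul_of_nonneg_right hK2 hΔ0.le
            · positivity
            · exact mul_le_mul_of_nonneg_left hDΔ (by positivity)
        _ = (1 / 16) * (1 / (x ^ 3 * Δ)) := by field_simp; ring
        _ = (1 / 16) * x := by
            congr 1
            rw [div_eq_iff (by positivity)]
            linarith
        _ ≤ x := by linarith
    have h3 : 16 * K * Δ / r ^ 2 ≤ 4 * x := by
      rw [hr]
      calc 16 * K * Δ / (2 * x * Δ) ^ 2 ≤ 16 * (1 / x) * Δ / (2 * x * Δ) ^ 2 := by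
            apply div_le_div_of_nonneg_right _ (by positivity)
            apply mul_le_mul_of_nonneg_right _ hΔ0.le
            linarith
        _ = 4 * (1 / (x ^ 3 * Δ)) := by field_simp; ring
        _ = 4 * x := by
            congr 1
            rw [div_eq_iff (by positivity)]
            linarith
    linarith

end Pool.Agent.KS6_81.OE
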