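import Pool.Agent.KS6_81.OE.Var

/-!
The probability that an edge gets a colour. (`inv_S`, `blocked` are adapted from the file
`Helper482_OEC/Main.lean` of an earlier run.)
-/

open scoped BigOperators
open Finset

namespace Pool.Agent.KS6_81.OE

variable {n Δ : ℕ} {D K : ℝ}

lemma inv_S (hP : Par D K) (h : History n Δ) (hd : ∀ a ∈ h, ¬ a.1.IsDiag) (u : Fin n)
    (c : Fin Δ) : W D K h u c * (D - S D K h u c) ≤ D := by
  induction h with
  | nil => simp [W, S]
  | cons a h ih =>
    obtain ⟨e, o⟩ := a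
    have ih' := ih fun a ha => hd a (List.mem_cons_of_mem _ ha)
    have hD := hP.hD
    by_cases hu : u ∈ e
    · obtain ⟨v, huv, rfl⟩ := mem_split hu (hd _ List.mem_cons_self)
      simp only [W, S, inc_mk _ huv]
      unfold upd
      rw [if_pos hu]
      split_ifs with ho
      · linarith
      · have hw := W_bd (D := D) (K := K) hP h
        have hpos := one_sub_pp_pos hP hw s(u, v) c
        rw [div_mul_eq_mul_div, div_le_iff₀ hpos]
        have h1 := pp_le_BD hP hw s(u, v) c
        rw [B_mk] at h1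
        have h2 : D * (1 - W D K h u c * W D K h v c / D) = D - W D K h u c * W D K h v c := by
          field_simp
        have h3 : D * (1 - W D K h u c * W D K h v c / D) ≤ D * (1 - pp D K (W D K h) s(u, v) c) :=
          mul_le_mul_of_nonneg_left (by linarith) hD.le
        nlinarith
    · simp only [W, S, inc_not _ hu, add_zero]
      unfold upd
      rw [if_neg hu]
      exact ih'

lemma blocked (hP : Par D K) (h : History n Δ) (hd : ∀ a ∈ h, ¬ a.1.IsDiag) (u v : Fin n)
    (c : Fin Δ) (hb : K * (1 - W D K h u c * W D K h v c / D) < W D K h u c) :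
    D - D / K < S D K h u c + W D K h v c := by
  by_contra hcon
  push Not at hcon
  have hD := hP.hD
  have hK : 0 < K := by linarith [hP.hK]
  have h1 := inv_S hP h hd u c
  have h2 : W D K h u c * (W D K h v c + D / K) ≤ W D K h u c * (D - S D K h u c) :=
    mul_le_mul_of_nonneg_left (by linarith) (W_bd hP h u c).1
  have h3 : W D K h u c * W D K h v c + W D K h u c * D / K ≤ D := by
    have : W D K h u c * (W D K h v c + D / K)
        = W D K h u c * W D K h v c + W D K h u c * D / K := by ring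
    linarith
  have h4 : W D K h u c ≤ K * (1 - W D K h u c * W D K h v c / D) := by
    have h5 : W D K h u c * D / K ≤ D - W D K h u c * W D K h v c := by linarith
    rw [div_le_iff₀ hK] at h5
    have h6 : K * (1 - W D K h u c * W D K h v c / D)
        = (D - W D K h u c * W D K h v c) * K / D := by field_simp
    rw [h6, le_div_iff₀ hD]
    exact h5
  linarith

/-- a blocked colour forces a large value of `Sg` -/
lemma blocked_Sg (hP : Par D K) (h : History n Δ) (hd : ∀ a ∈ h, ¬ a.1.IsDiag) (u v : Fin n)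
    (huv : s(u, v) ∉ h.map Prod.fst) (hnd : (h.map Prod.fst).Nodup)
    (c : Fin Δ) (r d : ℝ) (hr : 2 * (K + K ^ 2) ≤ r) (hr2 : (Δ : ℝ) + r ≤ D - D / K)
    (hdΔ : d ≤ Δ) (hb : K * (1 - W D K h u c * W D K h v c / D) < W D K h u c) :
    (r / 2) ^ 2 ≤ (Sg D K u v c h - d) ^ 2 := by
  have hD := hP.hD
  have hK1 := hP.hK
  have hK : 0 < K := by linarith
  have h1 := blocked hP h hd u v c hb
  have h2 := S_le_Sg hP u v c h hd huv hnd
  have h3 := (W_bd (D := D) (K := K) hP h v c).2
  have hk0 := kap_nonneg hP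
  have hk1 := kap_le hP
  have hkD : K ^ 2 / D * D = K ^ 2 := by field_simp
  have hDK : 0 < D / K := by positivity
  have hr0 : 0 < r := by nlinarith
  set κ := K ^ 2 / D with hκ
  have h4 : (1 - κ) * ((Δ : ℝ) + r - K) ≤ (1 - κ) * S D K h u c :=
    mul_le_mul_of_nonneg_left (by linarith) (by linarith)
  have h5 : κ * ((Δ : ℝ) + r - K) ≤ K ^ 2 := by
    rw [← hkD]
    exact mul_le_mul_of_nonneg_left (by linarith) hk0
  have h6 : r / 2 ≤ Sg D K u v c h - d := by
    have : (1 - κ) * ((Δ : ℝ) + r - K) = (Δ : ℝ) + r - K - κ * ((Δ : ℝ) + r - K) := by ring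
    linarith
  exact pow_le_pow_left₀ (by linarith) h6 2

/-- pointwise lower bound of the probability of getting a colour -/
lemma pointwise (hP : Par D K) (h : History n Δ) (hd : ∀ a ∈ h, ¬ a.1.IsDiag) (u v : Fin n)
    (huv : s(u, v) ∉ h.map Prod.fst) (hnd : (h.map Prod.fst).Nodup)
    (r du dv : ℝ) (hr : 2 * (K + K ^ 2) ≤ r) (hr2 : (Δ : ℝ) + r ≤ D - D / K) (hdu : du ≤ Δ)
    (hdv : dv ≤ Δ) :
    (∑ c, W D K h u c * W D K h v c) / D
      - 1 / (4 * (D - Δ) * D) * (∑ c, W D K h u c * W D K h v c - Δ) ^ 2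
      - 4 / (D * r ^ 2) * ∑ c, W D K h u c * W D K h v c * (Sg D K u v c h - du) ^ 2
      - 4 / (D * r ^ 2) * ∑ c, W D K h v c * W D K h u c * (Sg D K v u c h - dv) ^ 2
      ≤ ∑ c, pp D K (W D K h) s(u, v) c := by
  have hD := hP.hD
  have hK1 := hP.hK
  have hK : 0 < K := by linarith
  have hw := W_bd (D := D) (K := K) hP h
  have hr0 : 0 < r := by nlinarith
  set N := ∑ c, W D K h u c * W D K h v c with hN
  have hDr : (Δ : ℝ) + r ≤ D := by
    have : 0 < D / K := by positivity
    linarith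
  have hsD : 0 < D - Δ := by linarith
  have hM : 0 < max D N := lt_of_lt_of_le hD (le_max_left _ _)
  have hsum : ∑ c', B (W D K h) s(u, v) c' = N := rfl
  -- the unblocked part
  have hA : N / D - 1 / (4 * (D - Δ) * D) * (N - Δ) ^ 2 ≤ N / max D N := by
    rcases le_total N D with hND | hND
    · rw [max_eq_left hND]
      have : 0 ≤ 1 / (4 * (D - Δ) * D) * (N - Δ) ^ 2 := by positivity
      linarith
    · rw [max_eq_right hND, div_self (by linarith)]
      have h1 : N / D - 1 ≤ 1 / (4 * (D - Δ) * D) * (N - Δ) ^ 2 := by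
        rw [div_sub_one hD.ne', div_mul_eq_mul_div, one_mul, div_le_div_iff₀ hD (by positivity)]
        have h2 : 0 ≤ (N - Δ - 2 * (D - Δ)) ^ 2 := sq_nonneg _
        nlinarith [mul_nonneg hD.le h2]
      linarith
  have hc : ∀ c, W D K h u c * W D K h v c / max D N
      - 4 / (D * r ^ 2) * (W D K h u c * W D K h v c * (Sg D K u v c h - du) ^ 2)
      - 4 / (D * r ^ 2) * (W D K h v c * W D K h u c * (Sg D K v u c h - dv) ^ 2)
      ≤ pp D K (W D K h) s(u, v) c := by
    intro c
    have hB0 : 0 ≤ W D K h u c * W D K h v c := mul_nonneg (hw u c).1 (hw v c).1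
    have hB0' : 0 ≤ W D K h v c * W D K h u c := mul_nonneg (hw v c).1 (hw u c).1
    have hc0 : 0 ≤ 4 / (D * r ^ 2) := by positivity
    have h5 : 0 ≤ 4 / (D * r ^ 2) * (W D K h u c * W D K h v c * (Sg D K u v c h - du) ^ 2) := by
      positivity
    have h6 : 0 ≤ 4 / (D * r ^ 2) * (W D K h v c * W D K h u c * (Sg D K v u c h - dv) ^ 2) := by
      positivity
    have key : ∀ b t : ℝ, 0 ≤ b → (r / 2) ^ 2 ≤ t → b / D ≤ 4 / (D * r ^ 2) * (b * t) := by
      intro b t hb ht
      calc b / D = 4 / (D * r ^ 2) * (b * (r / 2) ^ 2) := by field_simp; ring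
        _ ≤ _ := mul_le_mul_of_nonneg_left (mul_le_mul_of_nonneg_left ht hb) hc0
    have hBM : W D K h u c * W D K h v c / max D N ≤ W D K h u c * W D K h v c / D :=
      div_le_div_of_nonneg_left hB0 hD (le_max_left _ _)
    unfold pp
    split_ifs with hcond
    · obtain ⟨x, hx, hcond⟩ := hcond
      rw [Sym2.mem_iff] at hx
      rcases hx with rfl | rfl
      · have h8 := key _ _ hB0 (blocked_Sg hP h hd x v huv hnd c r du hr hr2 hdu hcond)
        linarith
      · have h8 := key _ _ hB0' (blocked_Sg hP h hd x u (by rw [Sym2.eq_swap]; exact huv) hnd c r dv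
          hr hr2 hdv (by rw [mul_comm (W D K h x c)]; exact hcond))
        rw [mul_comm (W D K h x c)] at h8
        linarith
    · rw [B_mk, hsum]; linarith
  have hs := Finset.sum_le_sum fun c (_ : c ∈ Finset.univ) => hc c
  rw [Finset.sum_sub_distrib, Finset.sum_sub_distrib, ← Finset.sum_div, ← Finset.mul_sum,
    ← Finset.mul_sum] at hs
  linarith

/-- expected probability of getting a colour -/
lemma main_bound (hP : Par D K) (es : List (Sym2 (Fin n))) (u v : Fin n) (huv : u ≠ v)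
    (hd : ∀ e ∈ es, ¬ e.IsDiag) (hes : (s(u, v) :: es).Nodup)
    (r : ℝ) (hr : 2 * (K + K ^ 2) ≤ r) (hr2 : (Δ : ℝ) + r ≤ D - D / K)
    (hdu : dg es u ≤ Δ) (hdv : dg es v ≤ Δ) :
    (Δ : ℝ) / D - K ^ 2 * Δ / (4 * (D - Δ) * D) - 16 * K * Δ / r ^ 2
      ≤ Ex D K es (fun h : History n Δ => ∑ c, pp D K (W D K h) s(u, v) c) := by
  have hD := hP.hD
  have hK1 := hP.hK
  have hK : 0 < K := by linarith
  have hr0 : 0 < r := by nlinarith
  have hDr : (Δ : ℝ) + r ≤ D := by
    have : 0 < D / K := by positivity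
    linarith
  have hsD : 0 < D - Δ := by linarith
  have hDΔ : (Δ : ℝ) ≤ D := by linarith
  rw [List.nodup_cons] at hes
  have huv' : ∀ e ∈ es, ¬ (u ∈ e ∧ v ∈ e) := by
    intro e he h1
    rw [(Sym2.mem_and_mem_iff huv).mp h1] at he
    exact hes.1 he
  have hvu : s(v, u) ∉ es := by rw [Sym2.eq_swap]; exact hes.1
  have hVu : ∀ c : Fin Δ, Ex D K es (fun h => W D K h u c * W D K h v c
      * (Sg D K u v c h - dg es u) ^ 2) ≤ 2 * K * Δ := by
    intro c
    refine (Var_Sg hP u v huv c es hd hes.2 hes.1).trans ?_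
    apply mul_le_mul_of_nonneg_left _ (by positivity)
    exact_mod_cast hdu
  have hVv : ∀ c : Fin Δ, Ex D K es (fun h => W D K h v c * W D K h u c
      * (Sg D K v u c h - dg es v) ^ 2) ≤ 2 * K * Δ := by
    intro c
    refine (Var_Sg hP v u huv.symm c es hd hes.2 hvu).trans ?_
    apply mul_le_mul_of_nonneg_left _ (by positivity)
    exact_mod_cast hdv
  have hVN := Var_N (Δ := Δ) hP es u v huv'
  have h1 : Ex D K es (fun h => (∑ c : Fin Δ, W D K h u c * W D K h v c) / D
      - 1 / (4 * (D - Δ) * D) * (∑ c, W D K h u c * W D K h v c - Δ) ^ 2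
      - 4 / (D * r ^ 2) * ∑ c, W D K h u c * W D K h v c * (Sg D K u v c h - dg es u) ^ 2
      - 4 / (D * r ^ 2) * ∑ c, W D K h v c * W D K h u c * (Sg D K v u c h - dg es v) ^ 2)
      ≤ Ex D K es (fun h : History n Δ => ∑ c, pp D K (W D K h) s(u, v) c) := by
    refine Ex_mono' hP es _ _ fun h hh => ?_
    exact pointwise hP h (Ex_map_nd hh hd) u v (by rw [hh]; exact hes.1) (by rw [hh]; exact hes.2)
      r _ _ hr hr2 (by exact_mod_cast hdu) (by exact_mod_cast hdv)
  refine le_trans ?_ h1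
  rw [Ex_sub, Ex_sub, Ex_sub, Ex_smul, Ex_smul, Ex_smul, Ex_sum, Ex_sum]
  have h2 : Ex D K es (fun h : History n Δ => (∑ c, W D K h u c * W D K h v c) / D)
      = Δ / D := by
    have : (fun h : History n Δ => (∑ c, W D K h u c * W D K h v c) / D)
        = fun h => (1 / D) * ∑ c, W D K h u c * W D K h v c := by ext h; ring
    rw [this, Ex_smul, Ex_N1 hP es u v huv']; ring
  rw [h2]
  have hsu : ∑ c : Fin Δ, Ex D K es (fun h => W D K h u c * W D K h v c
      * (Sg D K u v c h - dg es u) ^ 2) ≤ Δ * (2 * K * Δ) := by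
    calc _ ≤ ∑ c : Fin Δ, 2 * K * (Δ : ℝ) := Finset.sum_le_sum fun c _ => hVu c
      _ = _ := by simp
  have hsv : ∑ c : Fin Δ, Ex D K es (fun h => W D K h v c * W D K h u c
      * (Sg D K v u c h - dg es v) ^ 2) ≤ Δ * (2 * K * Δ) := by
    calc _ ≤ ∑ c : Fin Δ, 2 * K * (Δ : ℝ) := Finset.sum_le_sum fun c _ => hVv c
      _ = _ := by simp
  have hc0 : 0 ≤ 4 / (D * r ^ 2) := by positivity
  have hc1 : 0 ≤ 1 / (4 * (D - Δ) * D) := by positivity
  have hb1 := mul_le_mul_of_nonneg_left hsu hc0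
  have hb2 := mul_le_mul_of_nonneg_left hsv hc0
  have hb3 := mul_le_mul_of_nonneg_left hVN hc1
  have hfin1 : 4 / (D * r ^ 2) * (Δ * (2 * K * Δ)) ≤ 8 * K * Δ / r ^ 2 := by
    have : 4 / (D * r ^ 2) * (Δ * (2 * K * Δ)) = (8 * K * Δ / r ^ 2) * (Δ / D) := by
      field_simp; ring
    rw [this]
    have h4 : (Δ : ℝ) / D ≤ 1 := by rw [div_le_one hD]; exact hDΔ
    calc _ ≤ (8 * K * Δ / r ^ 2) * 1 := mul_le_mul_of_nonneg_left h4 (by positivity)
      _ = _ := mul_one _
  have hfin2 : 1 / (4 * (D - Δ) * D) * (K ^ 2 * Δ) = K ^ 2 * Δ / (4 * (D - Δ) * D) := by ring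
  have hsplit : 16 * K * Δ / r ^ 2 = 8 * K * Δ / r ^ 2 + 8 * K * Δ / r ^ 2 := by ring
  rw [hsplit]
  linarith

end Pool.Agent.KS6_81.OE
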