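import Mathlib

/-!
The weights of an online edge colouring algorithm and one-step identities. (Adapted from the file
`Helper482_OEC/Core.lean` of an earlier run. New: the probabilities are rescaled, instead of being
set to zero, when their sum would be larger than one.)
-/

open scoped BigOperators
open Finset

namespace Pool.Agent.KS6_81.OE

/-- What an online algorithm has seen: the revealed edges with its decisions, most recent first. -/
abbrev History (n Δ : ℕ) := List (Sym2 (Fin n) × Option (Fin Δ))

/-- Weights: one number for each vertex and colour. -/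
abbrev Wts (n Δ : ℕ) := Fin n → Fin Δ → ℝ

variable {n Δ : ℕ}

/-- product of the weights of the two endpoints -/
noncomputable def B (w : Wts n Δ) (e : Sym2 (Fin n)) (c : Fin Δ) : ℝ :=
  Sym2.lift ⟨fun u v => w u c * w v c, fun _ _ => mul_comm _ _⟩ e

@[simp] lemma B_mk (w : Wts n Δ) (u v : Fin n) (c : Fin Δ) : B w s(u, v) c = w u c * w v c := rfl

variable (D K : ℝ)

open Classical in
/-- probability of giving `e` the colour `c` -/
noncomputable def pp (w : Wts n Δ) (e : Sym2 (Fin n)) (c : Fin Δ) : ℝ :=
  if ∃ x ∈ e, K * (1 - B w e c / D) < w x c then 0 else B w e c / max D (∑ c', B w e c')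

open Classical in
/-- the update of the weights after the decision `o` on the edge `e` -/
noncomputable def upd (w : Wts n Δ) (e : Sym2 (Fin n)) (o : Option (Fin Δ)) : Wts n Δ := fun x c =>
  if x ∈ e then (if o = some c then 0 else w x c / (1 - pp D K w e c)) else w x c

/-- the weights after a history -/
noncomputable def W : History n Δ → Wts n Δ
  | [] => fun _ _ => 1
  | (e, o) :: h => upd D K (W h) e o

/-- distribution of the decision -/
noncomputable def wt (w : Wts n Δ) (e : Sym2 (Fin n)) : Option (Fin Δ) → ℝ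
  | none => 1 - ∑ c, pp D K w e c
  | some c => pp D K w e c

/-- all weights lie between `0` and `K` -/
def Bd (w : Wts n Δ) : Prop := ∀ x c, 0 ≤ w x c ∧ w x c ≤ K

/-- standing assumptions on the parameters -/
structure Par : Prop where
  hD : 0 < D
  hK : 1 ≤ K
  hKD : 2 * K ^ 2 ≤ D

variable {D K}

lemma B_nonneg {w : Wts n Δ} (hw : Bd K w) (e : Sym2 (Fin n)) (c : Fin Δ) : 0 ≤ B w e c := by
  induction e using Sym2.ind with
  | _ u v => exact mul_nonneg (hw u c).1 (hw v c).1

lemma B_le {w : Wts n Δ} (hP : Par D K) (hw : Bd K w) (e : Sym2 (Fin n)) (c : Fin Δ) :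
    B w e c ≤ K ^ 2 := by
  induction e using Sym2.ind with
  | _ u v =>
    rw [B_mk, sq]
    exact mul_le_mul (hw u c).2 (hw v c).2 (hw v c).1 (by linarith [hP.hK])

lemma BD_nonneg {w : Wts n Δ} (hP : Par D K) (hw : Bd K w) (e : Sym2 (Fin n)) (c : Fin Δ) :
    0 ≤ B w e c / D := div_nonneg (B_nonneg hw e c) hP.hD.le

lemma BD_le {w : Wts n Δ} (hP : Par D K) (hw : Bd K w) (e : Sym2 (Fin n)) (c : Fin Δ) :
    B w e c / D ≤ K ^ 2 / D := div_le_div_of_nonneg_right (B_le hP hw e c) hP.hD.le

lemma kap_le (hP : Par D K) : K ^ 2 / D ≤ 1 / 2 := by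
  rw [div_le_iff₀ hP.hD]; linarith [hP.hKD]

lemma kap_nonneg (hP : Par D K) : 0 ≤ K ^ 2 / D := by
  have := hP.hD
  positivity

lemma pp_nonneg {w : Wts n Δ} (hP : Par D K) (hw : Bd K w) (e : Sym2 (Fin n)) (c : Fin Δ) :
    0 ≤ pp D K w e c := by
  unfold pp
  split_ifs
  · exact le_rfl
  · exact div_nonneg (B_nonneg hw e c) (hP.hD.le.trans (le_max_left _ _))

lemma pp_le_BD {w : Wts n Δ} (hP : Par D K) (hw : Bd K w) (e : Sym2 (Fin n)) (c : Fin Δ) :
    pp D K w e c ≤ B w e c / D := by
  unfold pp
  split_ifs
  · exact BD_nonneg hP hw e c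
  · exact div_le_div_of_nonneg_left (B_nonneg hw e c) hP.hD (le_max_left _ _)

lemma pp_le {w : Wts n Δ} (hP : Par D K) (hw : Bd K w) (e : Sym2 (Fin n)) (c : Fin Δ) :
    pp D K w e c ≤ K ^ 2 / D := (pp_le_BD hP hw e c).trans (BD_le hP hw e c)

lemma pp_le_half {w : Wts n Δ} (hP : Par D K) (hw : Bd K w) (e : Sym2 (Fin n)) (c : Fin Δ) :
    pp D K w e c ≤ 1 / 2 := (pp_le hP hw e c).trans (kap_le hP)

lemma one_sub_pp_pos {w : Wts n Δ} (hP : Par D K) (hw : Bd K w) (e : Sym2 (Fin n)) (c : Fin Δ) :
    0 < 1 - pp D K w e c := by linarith [pp_le_half hP hw e c]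

lemma sum_pp_le {w : Wts n Δ} (hP : Par D K) (hw : Bd K w) (e : Sym2 (Fin n)) :
    ∑ c, pp D K w e c ≤ 1 := by
  have hM : 0 < max D (∑ c', B w e c') := lt_of_lt_of_le hP.hD (le_max_left _ _)
  have h1 : ∀ c, pp D K w e c ≤ B w e c / max D (∑ c', B w e c') := by
    intro c
    unfold pp
    split_ifs
    · exact div_nonneg (B_nonneg hw e c) hM.le
    · exact le_rfl
  calc ∑ c, pp D K w e c ≤ ∑ c, B w e c / max D (∑ c', B w e c') :=
        Finset.sum_le_sum fun c _ => h1 c
    _ = (∑ c, B w e c) / max D (∑ c', B w e c') := by rw [Finset.sum_div]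
    _ ≤ 1 := by rw [div_le_one hM]; exact le_max_right _ _

lemma upd_bd {w : Wts n Δ} (hP : Par D K) (hw : Bd K w) (e : Sym2 (Fin n)) (o : Option (Fin Δ)) :
    Bd K (upd D K w e o) := by
  intro x c
  have hK : (0 : ℝ) ≤ K := by linarith [hP.hK]
  unfold upd
  split_ifs with h1 h2
  · exact ⟨le_rfl, hK⟩
  · refine ⟨div_nonneg (hw x c).1 (one_sub_pp_pos hP hw e c).le, ?_⟩
    rw [div_le_iff₀ (one_sub_pp_pos hP hw e c)]
    have h4 := pp_le_BD hP hw e c
    by_cases h3 : ∃ x ∈ e, K * (1 - B w e c / D) < w x c
    · have h5 : pp D K w e c = 0 := by unfold pp; rw [if_pos h3]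
      rw [h5]
      simpa using (hw x c).2
    · push Not at h3
      exact (h3 x h1).trans (mul_le_mul_of_nonneg_left (by linarith) hK)
  · exact hw x c

lemma W_bd (hP : Par D K) (h : History n Δ) : Bd K (W D K h) := by
  induction h with
  | nil => intro x c; exact ⟨zero_le_one, hP.hK⟩
  | cons a h ih =>
    obtain ⟨e, o⟩ := a
    exact upd_bd hP ih e o

lemma wt_nonneg {w : Wts n Δ} (hP : Par D K) (hw : Bd K w) (e : Sym2 (Fin n)) (o : Option (Fin Δ)) :
    0 ≤ wt D K w e o := by
  cases o with
  | none => simp only [wt]; linarith [sum_pp_le hP hw e]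
  | some c => exact pp_nonneg hP hw e c

lemma wt_sum (w : Wts n Δ) (e : Sym2 (Fin n)) : ∑ o, wt D K w e o = 1 := by
  rw [Fintype.sum_option]
  simp [wt]

/-- sum of the weights of the decisions which avoid one colour -/
lemma wt_sum_ne (w : Wts n Δ) (e : Sym2 (Fin n)) (c : Fin Δ) :
    ∑ o, (if o = some c then 0 else wt D K w e o) = 1 - pp D K w e c := by
  have h := wt_sum (D := D) (K := K) w e
  have h2 : ∑ o, (if o = some c then 0 else wt D K w e o)
      + ∑ o, (if o = some c then wt D K w e o else 0) = 1 := by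
    rw [← Finset.sum_add_distrib, ← h]
    refine Finset.sum_congr rfl fun o _ => ?_
    split_ifs <;> ring
  have h3 : ∑ o, (if o = some c then wt D K w e o else 0) = pp D K w e c := by
    rw [Finset.sum_ite_eq' Finset.univ (some c)]
    simp [wt]
  linarith

/-- sum of the weights of the decisions which avoid two colours -/
lemma wt_sum_ne_ne (w : Wts n Δ) (e : Sym2 (Fin n)) {c c' : Fin Δ} (hc : c ≠ c') :
    ∑ o, (if o = some c then 0 else if o = some c' then 0 else wt D K w e o)
      = 1 - pp D K w e c - pp D K w e c' := by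
  have h := wt_sum (D := D) (K := K) w e
  have h2 : ∑ o, (if o = some c then 0 else if o = some c' then 0 else wt D K w e o)
      + ∑ o, (if o = some c then wt D K w e o else 0)
      + ∑ o, (if o = some c' then wt D K w e o else 0) = 1 := by
    rw [← Finset.sum_add_distrib, ← Finset.sum_add_distrib, ← h]
    refine Finset.sum_congr rfl fun o _ => ?_
    by_cases h1 : o = some c
    · have : ¬ (o = some c') := by
        rw [h1]; simpa using hc
      simp [h1, hc]
    · by_cases h4 : o = some c'
      · subst h4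
        simp [Ne.symm hc]
      · simp [h1, h4]
  have h3 : ∀ c, ∑ o, (if o = some c then wt D K w e o else 0) = pp D K w e c := by
    intro c
    rw [Finset.sum_ite_eq' Finset.univ (some c)]
    simp [wt]
  rw [h3, h3] at h2
  linarith


variable (D K)

/-- expectation of a function of the history -/
noncomputable def Ex : List (Sym2 (Fin n)) → (History n Δ → ℝ) → ℝ
  | [], f => f []
  | e :: es, f => Ex es fun h => ∑ o, wt D K (W D K h) e o * f ((e, o) :: h)

variable {D K}

lemma Ex_add (es : List (Sym2 (Fin n))) (f g : History n Δ → ℝ) :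
    Ex D K es (fun h => f h + g h) = Ex D K es f + Ex D K es g := by
  induction es generalizing f g with
  | nil => rfl
  | cons e es ih =>
    simp only [Ex]
    rw [← ih]
    congr 1
    ext h
    rw [← Finset.sum_add_distrib]
    exact Finset.sum_congr rfl fun o _ => by ring

lemma Ex_smul (es : List (Sym2 (Fin n))) (a : ℝ) (f : History n Δ → ℝ) :
    Ex D K es (fun h => a * f h) = a * Ex D K es f := by
  induction es generalizing f with
  | nil => rfl
  | cons e es ih =>
    simp only [Ex]
    rw [← ih]
    congr 1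
    ext h
    rw [Finset.mul_sum]
    exact Finset.sum_congr rfl fun o _ => by ring

lemma Ex_sub (es : List (Sym2 (Fin n))) (f g : History n Δ → ℝ) :
    Ex D K es (fun h => f h - g h) = Ex D K es f - Ex D K es g := by
  have h1 : (fun h => f h - g h) = fun h => f h + (-1) * g h := by ext h; ring
  rw [h1, Ex_add, Ex_smul]; ring

lemma Ex_const (es : List (Sym2 (Fin n))) (a : ℝ) :
    Ex D K es (fun _ : History n Δ => a) = a := by
  induction es with
  | nil => rfl
  | cons e es ih =>
    simp only [Ex]
    have : (fun h : History n Δ => ∑ o, wt D K (W D K h) e o * a) = fun _ => a := by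
      ext h
      rw [← Finset.sum_mul, wt_sum, one_mul]
    rw [this, ih]

lemma Ex_sum {ι : Type} (s : Finset ι) (es : List (Sym2 (Fin n))) (f : ι → History n Δ → ℝ) :
    Ex D K es (fun h => ∑ i ∈ s, f i h) = ∑ i ∈ s, Ex D K es (f i) := by
  classical
  induction s using Finset.induction_on with
  | empty => simp [Ex_const]
  | insert i s hi ih =>
    rw [Finset.sum_insert hi, ← ih, ← Ex_add]
    congr 1
    ext h
    rw [Finset.sum_insert hi]

lemma Ex_mono' (hP : Par D K) (es : List (Sym2 (Fin n))) (f g : History n Δ → ℝ)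
    (hfg : ∀ h, h.map Prod.fst = es → f h ≤ g h) : Ex D K es f ≤ Ex D K es g := by
  induction es generalizing f g with
  | nil => exact hfg [] rfl
  | cons e es ih =>
    simp only [Ex]
    apply ih
    intro h hh
    refine Finset.sum_le_sum fun o _ => ?_
    exact mul_le_mul_of_nonneg_left (hfg _ (by simp [hh])) (wt_nonneg hP (W_bd hP h) e o)

lemma Ex_mono (hP : Par D K) (es : List (Sym2 (Fin n))) (f g : History n Δ → ℝ)
    (hfg : ∀ h, f h ≤ g h) : Ex D K es f ≤ Ex D K es g :=
  Ex_mono' hP es f g fun h _ => hfg h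

/-! One step identities. -/

lemma step_one {w : Wts n Δ} (hP : Par D K) (hw : Bd K w) (e : Sym2 (Fin n)) (x : Fin n)
    (c : Fin Δ) : ∑ o, wt D K w e o * upd D K w e o x c = w x c := by
  by_cases hx : x ∈ e
  · have h1 : ∀ o, wt D K w e o * upd D K w e o x c
        = (if o = some c then 0 else wt D K w e o) * (w x c / (1 - pp D K w e c)) := by
      intro o
      unfold upd
      rw [if_pos hx]
      split_ifs <;> ring
    rw [Finset.sum_congr rfl fun o _ => h1 o, ← Finset.sum_mul, wt_sum_ne]
    have := one_sub_pp_pos hP hw e c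
    field_simp
  · have h1 : ∀ o, wt D K w e o * upd D K w e o x c = wt D K w e o * w x c := by
      intro o
      unfold upd
      rw [if_neg hx]
    rw [Finset.sum_congr rfl fun o _ => h1 o, ← Finset.sum_mul, wt_sum, one_mul]

/-- two vertices, at most one of them on the edge -/
lemma step_two {w : Wts n Δ} (hP : Par D K) (hw : Bd K w) (e : Sym2 (Fin n)) (x y : Fin n)
    (hxy : ¬ (x ∈ e ∧ y ∈ e)) (c : Fin Δ) :
    ∑ o, wt D K w e o * (upd D K w e o x c * upd D K w e o y c) = w x c * w y c := by
  by_cases hx : x ∈ e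
  · have hy : y ∉ e := fun hy => hxy ⟨hx, hy⟩
    have h1 : ∀ o, wt D K w e o * (upd D K w e o x c * upd D K w e o y c)
        = (wt D K w e o * upd D K w e o x c) * w y c := by
      intro o
      have : upd D K w e o y c = w y c := by unfold upd; rw [if_neg hy]
      rw [this]; ring
    rw [Finset.sum_congr rfl fun o _ => h1 o, ← Finset.sum_mul, step_one hP hw]
  · have h1 : ∀ o, wt D K w e o * (upd D K w e o x c * upd D K w e o y c)
        = (wt D K w e o * upd D K w e o y c) * w x c := by
      intro o
      have : upd D K w e o x c = w x c := by unfold upd; rw [if_neg hx]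
      rw [this]; ring
    rw [Finset.sum_congr rfl fun o _ => h1 o, ← Finset.sum_mul, step_one hP hw]; ring

/-- two vertices of the edge: the product grows by a bounded factor -/
lemma step_two' {w : Wts n Δ} (hP : Par D K) (hw : Bd K w) (e : Sym2 (Fin n)) (x y : Fin n)
    (c : Fin Δ) :
    (1 - K ^ 2 / D) * ∑ o, wt D K w e o * (upd D K w e o x c * upd D K w e o y c)
      ≤ w x c * w y c := by
  by_cases hxy : x ∈ e ∧ y ∈ e
  · have h1 : ∀ o, wt D K w e o * (upd D K w e o x c * upd D K w e o y c)
        = (if o = some c then 0 else wt D K w e o)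
          * ((w x c / (1 - pp D K w e c)) * (w y c / (1 - pp D K w e c))) := by
      intro o
      unfold upd
      rw [if_pos hxy.1, if_pos hxy.2]
      split_ifs <;> ring
    rw [Finset.sum_congr rfl fun o _ => h1 o, ← Finset.sum_mul, wt_sum_ne]
    have h2 := one_sub_pp_pos hP hw e c
    have h3 := pp_le hP hw e c
    have h4 : 0 ≤ w x c * w y c := mul_nonneg (hw x c).1 (hw y c).1
    have h5 : (1 - K ^ 2 / D) * ((1 - pp D K w e c)
        * ((w x c / (1 - pp D K w e c)) * (w y c / (1 - pp D K w e c))))
        = (w x c * w y c) * ((1 - K ^ 2 / D) / (1 - pp D K w e c)) := by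
      field_simp
    rw [h5]
    have h6 : (1 - K ^ 2 / D) / (1 - pp D K w e c) ≤ 1 := by
      rw [div_le_one h2]; linarith
    calc (w x c * w y c) * ((1 - K ^ 2 / D) / (1 - pp D K w e c)) ≤ (w x c * w y c) * 1 :=
          mul_le_mul_of_nonneg_left h6 h4
      _ = w x c * w y c := mul_one _
  · rw [step_two hP hw e x y hxy]
    have h4 : 0 ≤ w x c * w y c := mul_nonneg (hw x c).1 (hw y c).1
    have := kap_nonneg hP
    nlinarith

/-- two vertices and two colours -/
lemma step_four {w : Wts n Δ} (hP : Par D K) (hw : Bd K w) (e : Sym2 (Fin n)) (x y : Fin n)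
    (hxy : ¬ (x ∈ e ∧ y ∈ e)) {c c' : Fin Δ} (hc : c ≠ c') :
    ∑ o, wt D K w e o * (upd D K w e o x c * upd D K w e o y c
      * (upd D K w e o x c' * upd D K w e o y c')) ≤ w x c * w y c * (w x c' * w y c') := by
  -- reduce to one vertex
  have key : ∀ z : Fin n, ∑ o, wt D K w e o * (upd D K w e o z c * upd D K w e o z c')
      ≤ w z c * w z c' := by
    intro z
    by_cases hz : z ∈ e
    · have h1 : ∀ o, wt D K w e o * (upd D K w e o z c * upd D K w e o z c')
          = (if o = some c then 0 else if o = some c' then 0 else wt D K w e o)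
            * ((w z c / (1 - pp D K w e c)) * (w z c' / (1 - pp D K w e c'))) := by
        intro o
        unfold upd
        rw [if_pos hz, if_pos hz]
        split_ifs <;> ring
      rw [Finset.sum_congr rfl fun o _ => h1 o, ← Finset.sum_mul, wt_sum_ne_ne w e hc]
      have h2 := one_sub_pp_pos hP hw e c
      have h2' := one_sub_pp_pos hP hw e c'
      have h4 : 0 ≤ w z c * w z c' := mul_nonneg (hw z c).1 (hw z c').1
      have h5 : (1 - pp D K w e c - pp D K w e c')
          * ((w z c / (1 - pp D K w e c)) * (w z c' / (1 - pp D K w e c')))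
          = (w z c * w z c') * ((1 - pp D K w e c - pp D K w e c')
            / ((1 - pp D K w e c) * (1 - pp D K w e c'))) := by
        field_simp
      rw [h5]
      have h6 : (1 - pp D K w e c - pp D K w e c')
            / ((1 - pp D K w e c) * (1 - pp D K w e c')) ≤ 1 := by
        rw [div_le_one (mul_pos h2 h2')]
        nlinarith [pp_nonneg hP hw e c, pp_nonneg hP hw e c',
          mul_nonneg (pp_nonneg hP hw e c) (pp_nonneg hP hw e c')]
      calc _ ≤ (w z c * w z c') * 1 := mul_le_mul_of_nonneg_left h6 h4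
        _ = _ := mul_one _
    · have h1 : ∀ o, wt D K w e o * (upd D K w e o z c * upd D K w e o z c')
          = wt D K w e o * (w z c * w z c') := by
        intro o
        unfold upd
        rw [if_neg hz, if_neg hz]
      rw [Finset.sum_congr rfl fun o _ => h1 o, ← Finset.sum_mul, wt_sum, one_mul]
  by_cases hx : x ∈ e
  · have hy : y ∉ e := fun hy => hxy ⟨hx, hy⟩
    have h1 : ∀ o, wt D K w e o * (upd D K w e o x c * upd D K w e o y c
        * (upd D K w e o x c' * upd D K w e o y c'))
        = (wt D K w e o * (upd D K w e o x c * upd D K w e o x c')) * (w y c * w y c') := by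
      intro o
      have : ∀ c, upd D K w e o y c = w y c := by intro c; unfold upd; rw [if_neg hy]
      rw [this, this]; ring
    rw [Finset.sum_congr rfl fun o _ => h1 o, ← Finset.sum_mul]
    calc _ ≤ (w x c * w x c') * (w y c * w y c') :=
          mul_le_mul_of_nonneg_right (key x) (mul_nonneg (hw y c).1 (hw y c').1)
      _ = _ := by ring
  · have h1 : ∀ o, wt D K w e o * (upd D K w e o x c * upd D K w e o y c
        * (upd D K w e o x c' * upd D K w e o y c'))
        = (wt D K w e o * (upd D K w e o y c * upd D K w e o y c')) * (w x c * w x c') := by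
      intro o
      have : ∀ c, upd D K w e o x c = w x c := by intro c; unfold upd; rw [if_neg hx]
      rw [this, this]; ring
    rw [Finset.sum_congr rfl fun o _ => h1 o, ← Finset.sum_mul]
    calc _ ≤ (w y c * w y c') * (w x c * w x c') :=
          mul_le_mul_of_nonneg_right (key y) (mul_nonneg (hw x c).1 (hw x c').1)
      _ = _ := by ring

end Pool.Agent.KS6_81.OE
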