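import Pool.Agent.KS6_81.OE.Low

/-!
A lower bound for the failure probability of every online algorithm, for forests.
-/

open scoped ENNReal BigOperators
open Finset

namespace Pool.Agent.KS6_81.OE

/-! ### Forests -/

lemma acyclic_of_parent {V : Type} (G : SimpleGraph V) (ρ : V → ℕ) (par : V → V)
    (h : ∀ a b, G.Adj a b → (b = par a ∧ ρ b < ρ a) ∨ (a = par b ∧ ρ a < ρ b)) :
    G.IsAcyclic := by
  classical
  intro v c hc
  obtain ⟨w, hw, hmax⟩ := Finset.exists_max_image c.support.toFinset ρ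
    ⟨v, List.mem_toFinset.mpr c.start_mem_support⟩
  rw [List.mem_toFinset] at hw
  have hmax' : ∀ y ∈ c.support, ρ y ≤ ρ w := fun y hy => hmax y (List.mem_toFinset.mpr hy)
  obtain ⟨c', hc'def⟩ : ∃ c', c' = c.rotate w hw := ⟨_, rfl⟩
  have hc' : c'.IsCycle := by rw [hc'def]; exact SimpleGraph.Walk.IsCycle.rotate hw hc
  have hmem : ∀ y ∈ c'.support, y ∈ c.support := by
    intro y hy
    rw [hc'def] at hy
    exact (SimpleGraph.Walk.mem_support_rotate_iff c w hw).mp hy
  have h1 : c'.snd = par w := by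
    have hadj := c'.adj_snd hc'.not_nil
    rcases h _ _ hadj with h2 | h2
    · exact h2.1
    · have := hmax' _ (hmem _ (c'.getVert_mem_support 1))
      have h3 : ρ w < ρ (c'.getVert 1) := h2.2
      omega
  have h1' : c'.penultimate = par w := by
    have hadj := c'.adj_penultimate hc'.not_nil
    rcases h _ _ hadj with h2 | h2
    · have := hmax' _ (hmem _ (c'.getVert_mem_support (c'.length - 1)))
      have h3 : ρ w < ρ (c'.getVert (c'.length - 1)) := h2.2
      omega
    · exact h2.1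
  exact hc'.snd_ne_penultimate (h1.trans h1'.symm)

/-! ### The instances -/

section inst

variable (Δ : ℕ)

/-- the vertices: `none` is the last vertex, `some (i, none)` a centre, `some (i, some k)` a
leaf -/
abbrev V0 : Type := Option (Fin (2 * Δ) × Option (Fin (Δ - 1)))

/-- the number of vertices -/
noncomputable def n0 : ℕ := Fintype.card (V0 Δ)

/-- the numbering of the vertices -/
noncomputable def φ : V0 Δ ≃ Fin (n0 Δ) := Fintype.equivFin _

/-- the last vertex -/
noncomputable def xx : Fin (n0 Δ) := φ Δ none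

/-- the centres -/
noncomputable def cc (i : Fin (2 * Δ)) : Fin (n0 Δ) := φ Δ (some (i, none))

/-- the leaves -/
noncomputable def ll (p : Fin (2 * Δ) × Fin (Δ - 1)) : Fin (n0 Δ) := φ Δ (some (p.1, some p.2))

/-- the edges of the stars -/
noncomputable def stars : List (Sym2 (Fin (n0 Δ))) :=
  (Finset.univ : Finset (Fin (2 * Δ) × Fin (Δ - 1))).toList.map fun p => s(cc Δ p.1, ll Δ p)

variable {Δ}

lemma mem_stars {e : Sym2 (Fin (n0 Δ))} : e ∈ stars Δ ↔ ∃ p, e = s(cc Δ p.1, ll Δ p) := by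
  unfold stars
  simp [eq_comm]

lemma cc_ne_xx (i : Fin (2 * Δ)) : cc Δ i ≠ xx Δ := by
  unfold cc xx
  intro h
  simpa using (φ Δ).injective h

lemma ll_ne_xx (p : Fin (2 * Δ) × Fin (Δ - 1)) : ll Δ p ≠ xx Δ := by
  unfold ll xx
  intro h
  simpa using (φ Δ).injective h

lemma ll_ne_cc (p : Fin (2 * Δ) × Fin (Δ - 1)) (i : Fin (2 * Δ)) : ll Δ p ≠ cc Δ i := by
  unfold ll cc
  intro h
  have := (φ Δ).injective h
  simp at this

lemma cc_inj : Function.Injective (cc Δ) := by
  intro i j h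
  have := (φ Δ).injective h
  simpa using this

lemma ll_inj : Function.Injective (ll Δ) := by
  intro p q h
  have := (φ Δ).injective h
  simp only [Option.some.injEq, Prod.mk.injEq] at this
  exact Prod.ext this.1 this.2

lemma xx_stars : ∀ e ∈ stars Δ, xx Δ ∉ e := by
  intro e he
  obtain ⟨p, rfl⟩ := mem_stars.mp he
  rw [Sym2.mem_iff]
  rintro (h | h)
  · exact cc_ne_xx _ h.symm
  · exact ll_ne_xx _ h.symm

lemma stars_nodup : (stars Δ).Nodup := by
  unfold stars
  apply List.Nodup.map _ (Finset.nodup_toList _)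
  intro p q h
  simp only [Sym2.eq_iff] at h
  rcases h with ⟨-, h⟩ | ⟨h, -⟩
  · exact ll_inj h
  · exact absurd h.symm (ll_ne_cc _ _)

lemma cnt_stars (hΔ : 1 ≤ Δ) (i : Fin (2 * Δ)) :
    cnt (fun e => cc Δ i ∈ e) (stars Δ) + 1 = Δ := by
  classical
  have h1 : ∀ l : List (Fin (2 * Δ) × Fin (Δ - 1)),
      cnt (fun e => cc Δ i ∈ e) (l.map fun p => s(cc Δ p.1, ll Δ p))
        = (l.map fun p => if p.1 = i then 1 else 0).sum := by
    intro l
    induction l with
    | nil => simp [cnt]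
    | cons p l ih =>
      simp only [List.map_cons, cnt, List.sum_cons, ih]
      have h2 : cc Δ i ∈ s(cc Δ p.1, ll Δ p) ↔ p.1 = i := by
        rw [Sym2.mem_iff]
        constructor
        · rintro (h | h)
          · exact (cc_inj h).symm
          · exact absurd h.symm (ll_ne_cc _ _)
        · rintro rfl
          exact Or.inl rfl
      rw [add_comm]
      congr 1
      by_cases h3 : p.1 = i
      · rw [if_pos (h2.mpr h3), if_pos h3]
      · rw [if_neg (fun h => h3 (h2.mp h)), if_neg h3]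
  unfold stars
  rw [h1, Finset.sum_map_toList, Finset.sum_boole]
  have h3 : (Finset.univ.filter fun p : Fin (2 * Δ) × Fin (Δ - 1) => p.1 = i).card = Δ - 1 := by
    have : (Finset.univ.filter fun p : Fin (2 * Δ) × Fin (Δ - 1) => p.1 = i)
        = Finset.univ.map ⟨fun k : Fin (Δ - 1) => (i, k), fun a b h => (Prod.mk.inj h).2⟩ := by
      ext p
      simp only [Finset.mem_filter, Finset.mem_univ, true_and, Finset.mem_map]
      constructor
      · rintro rfl
        exact ⟨p.2, rfl⟩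
      · rintro ⟨k, rfl⟩
        rfl
    rw [this, Finset.card_map, Finset.card_univ, Fintype.card_fin]
  rw [h3]
  simp only [Nat.cast_id]
  omega

/-- the forest -/
noncomputable def forest (σ : List (Fin (2 * Δ))) : SimpleGraph (Fin (n0 Δ)) :=
  SimpleGraph.fromEdgeSet {e | e ∈ inst (cc Δ) (xx Δ) (stars Δ) σ}

lemma mem_inst {σ : List (Fin (2 * Δ))} {e : Sym2 (Fin (n0 Δ))} :
    e ∈ inst (cc Δ) (xx Δ) (stars Δ) σ
      ↔ (∃ j ∈ σ, e = s(xx Δ, cc Δ j)) ∨ ∃ p, e = s(cc Δ p.1, ll Δ p) := by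
  unfold inst
  rw [List.mem_append, mem_stars]
  simp [eq_comm]

lemma adj_iff {σ : List (Fin (2 * Δ))} {a b : Fin (n0 Δ)} :
    (forest σ).Adj a b ↔ (∃ j ∈ σ, s(a, b) = s(xx Δ, cc Δ j)) ∨ ∃ p, s(a, b) = s(cc Δ p.1, ll Δ p) := by
  unfold forest
  rw [SimpleGraph.fromEdgeSet_adj, Set.mem_ofPred_eq, mem_inst]
  constructor
  · exact fun h => h.1
  · intro h
    refine ⟨h, ?_⟩
    rintro rfl
    rcases h with ⟨j, -, h⟩ | ⟨p, h⟩
    · rw [Sym2.eq_iff] at h
      rcases h with ⟨h1, h2⟩ | ⟨h1, h2⟩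
      · exact cc_ne_xx j (h2.symm.trans h1)
      · exact cc_ne_xx j (h1.symm.trans h2)
    · rw [Sym2.eq_iff] at h
      rcases h with ⟨h1, h2⟩ | ⟨h1, h2⟩
      · exact ll_ne_cc p p.1 (h2.symm.trans h1)
      · exact ll_ne_cc p p.1 (h1.symm.trans h2)

/-- the level of a vertex -/
def rk : V0 Δ → ℕ
  | none => 0
  | some (_, none) => 1
  | some (_, some _) => 2

/-- the parent of a vertex -/
def pr : V0 Δ → V0 Δ
  | none => none
  | some (_, none) => none
  | some (i, some _) => some (i, none)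

lemma forest_acyclic (σ : List (Fin (2 * Δ))) : (forest σ).IsAcyclic := by
  apply acyclic_of_parent (forest σ) (fun v => rk ((φ Δ).symm v))
    (fun v => φ Δ (pr ((φ Δ).symm v)))
  have hx : ∀ j, xx Δ = φ Δ (pr ((φ Δ).symm (cc Δ j)))
      ∧ rk ((φ Δ).symm (xx Δ)) < rk ((φ Δ).symm (cc Δ j)) := by
    intro j
    simp [xx, cc, pr, rk]
  have hl : ∀ p, cc Δ p.1 = φ Δ (pr ((φ Δ).symm (ll Δ p)))
      ∧ rk ((φ Δ).symm (cc Δ p.1)) < rk ((φ Δ).symm (ll Δ p)) := by
    intro p
    simp [cc, ll, pr, rk]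
  intro a b hab
  rcases adj_iff.mp hab with ⟨j, -, h⟩ | ⟨p, h⟩
  · rw [Sym2.eq_iff] at h
    rcases h with ⟨rfl, rfl⟩ | ⟨rfl, rfl⟩
    · exact Or.inr (hx j)
    · exact Or.inl (hx j)
  · rw [Sym2.eq_iff] at h
    rcases h with ⟨rfl, rfl⟩ | ⟨rfl, rfl⟩
    · exact Or.inr (hl p)
    · exact Or.inl (hl p)

lemma forest_degree (hΔ : 1 ≤ Δ) (σ : List (Fin (2 * Δ))) (hlen : σ.length = Δ)
    (v : Fin (n0 Δ)) : ((forest σ).neighborSet v).ncard ≤ Δ := by
  classical
  obtain ⟨w, rfl⟩ := (φ Δ).surjective v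
  rcases w with _ | ⟨i, _ | k⟩
  · -- the last vertex
    have h1 : (forest σ).neighborSet (φ Δ none) ⊆ ((σ.toFinset.image (cc Δ) : Finset _) : Set _) := by
      intro b hb
      rw [SimpleGraph.mem_neighborSet] at hb
      rcases adj_iff.mp hb with ⟨j, hj, h⟩ | ⟨p, h⟩
      · rw [Sym2.eq_iff] at h
        rcases h with ⟨-, rfl⟩ | ⟨h1, -⟩
        · simp only [Finset.coe_image, Set.mem_image, Finset.mem_coe, List.mem_toFinset]
          exact ⟨j, hj, rfl⟩
        · exact absurd h1.symm (cc_ne_xx j)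
      · exfalso
        rw [Sym2.eq_iff] at h
        rcases h with ⟨h1, -⟩ | ⟨h1, -⟩
        · exact cc_ne_xx _ h1.symm
        · exact ll_ne_xx _ h1.symm
    calc ((forest σ).neighborSet (φ Δ none)).ncard
        ≤ ((σ.toFinset.image (cc Δ) : Finset _) : Set (Fin (n0 Δ))).ncard :=
          Set.ncard_le_ncard h1 (Finset.finite_toSet _)
      _ = (σ.toFinset.image (cc Δ)).card := Set.ncard_coe_finset _
      _ ≤ σ.toFinset.card := Finset.card_image_le
      _ ≤ σ.length := List.toFinset_card_le _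
      _ = Δ := hlen
  · -- a centre
    have h1 : (forest σ).neighborSet (φ Δ (some (i, none)))
        ⊆ ((insert (xx Δ) (Finset.univ.image fun k : Fin (Δ - 1) => ll Δ (i, k)) : Finset _)
          : Set _) := by
      intro b hb
      rw [SimpleGraph.mem_neighborSet] at hb
      simp only [Finset.coe_insert, Finset.coe_image, Finset.coe_univ, Set.image_univ,
        Set.mem_insert_iff, Set.mem_range]
      rcases adj_iff.mp hb with ⟨j, hj, h⟩ | ⟨p, h⟩
      · rw [Sym2.eq_iff] at h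
        rcases h with ⟨h1, -⟩ | ⟨-, rfl⟩
        · exact absurd h1 (cc_ne_xx i)
        · exact Or.inl rfl
      · rw [Sym2.eq_iff] at h
        rcases h with ⟨h1, rfl⟩ | ⟨h1, -⟩
        · have : i = p.1 := cc_inj h1
          subst this
          exact Or.inr ⟨p.2, rfl⟩
        · exact absurd h1.symm (ll_ne_cc p i)
    calc ((forest σ).neighborSet (φ Δ (some (i, none)))).ncard
        ≤ ((insert (xx Δ) (Finset.univ.image fun k : Fin (Δ - 1) => ll Δ (i, k)) : Finset _)
          : Set (Fin (n0 Δ))).ncard := Set.ncard_le_ncard h1 (Finset.finite_toSet _)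
      _ = (insert (xx Δ) (Finset.univ.image fun k : Fin (Δ - 1) => ll Δ (i, k))).card :=
          Set.ncard_coe_finset _
      _ ≤ (Finset.univ.image fun k : Fin (Δ - 1) => ll Δ (i, k)).card + 1 :=
          Finset.card_insert_le _ _
      _ ≤ (Finset.univ : Finset (Fin (Δ - 1))).card + 1 := by
          have := Finset.card_image_le (s := (Finset.univ : Finset (Fin (Δ - 1))))
            (f := fun k => ll Δ (i, k))
          omega
      _ = Δ := by
          rw [Finset.card_univ, Fintype.card_fin]; omega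
  · -- a leaf
    have h1 : (forest σ).neighborSet (φ Δ (some (i, some k))) ⊆ {cc Δ i} := by
      intro b hb
      rw [SimpleGraph.mem_neighborSet] at hb
      rw [Set.mem_singleton_iff]
      rcases adj_iff.mp hb with ⟨j, hj, h⟩ | ⟨p, h⟩
      · exfalso
        rw [Sym2.eq_iff] at h
        rcases h with ⟨h1, -⟩ | ⟨h1, -⟩
        · exact ll_ne_xx (i, k) h1
        · exact ll_ne_cc (i, k) j h1
      · rw [Sym2.eq_iff] at h
        rcases h with ⟨h1, -⟩ | ⟨h1, rfl⟩
        · exact absurd h1 (ll_ne_cc (i, k) _)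
        · have : (i, k) = p := ll_inj h1
          subst this
          rfl
    calc ((forest σ).neighborSet (φ Δ (some (i, some k)))).ncard
        ≤ ({cc Δ i} : Set (Fin (n0 Δ))).ncard := Set.ncard_le_ncard h1 (Set.finite_singleton _)
      _ = 1 := Set.ncard_singleton _
      _ ≤ Δ := hΔ

lemma forest_input (hΔ : 1 ≤ Δ) (L : ℕ) (σ : List (Fin (2 * Δ))) (hσ : σ.Nodup)
    (hlen : σ.length = Δ) :
    IsInput Δ L (forest σ) (inst (cc Δ) (xx Δ) (stars Δ) σ) := by
  refine ⟨forest_degree hΔ σ hlen, ?_, ?_, ?_⟩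
  · rw [SimpleGraph.egirth_eq_top.mpr (forest_acyclic σ)]
    exact le_top
  · unfold inst
    rw [List.nodup_append]
    refine ⟨?_, stars_nodup, ?_⟩
    · apply List.Nodup.map _ hσ
      intro i j hij
      simp only at hij
      rw [Sym2.eq_iff] at hij
      rcases hij with ⟨-, h⟩ | ⟨h, -⟩
      · exact cc_inj h
      · exact absurd h.symm (cc_ne_xx j)
    · intro a ha b hb hab
      subst hab
      obtain ⟨j, -, rfl⟩ := List.mem_map.mp ha
      exact xx_stars _ hb (Sym2.mem_mk_left _ _)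
  · intro e
    induction e using Sym2.ind with
    | _ a b =>
      rw [SimpleGraph.mem_edgeSet, adj_iff, mem_inst]

end inst

/-- the harmonic numbers are at least the logarithm -/
lemma log_le_Hn (r : ℕ) : Real.log r ≤ Hn r := by
  have h1 := log_add_one_le_harmonic r
  have h2 : ((harmonic r : ℚ) : ℝ) = Hn r := by
    unfold harmonic Hn
    push_cast
    refine Finset.sum_congr rfl fun i _ => ?_
    rw [one_div]
  rw [h2] at h1
  refine le_trans ?_ h1
  rcases Nat.eq_zero_or_pos r with rfl | hr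
  · simp
  · apply Real.log_le_log (by exact_mod_cast hr)
    push_cast
    linarith

/-- **Every online algorithm leaves some edge of some forest of maximum degree at most `Δ`
uncoloured with probability at least `(log Δ / 12 - 1) / Δ`.** -/
theorem lower (Δ : ℕ) (hΔ : 1 ≤ Δ) (A : ∀ n, OnlineAlgorithm (Fin n) Δ) :
    ∃ (n : ℕ) (G : SimpleGraph (Fin n)) (es : List (Sym2 (Fin n))) (e : Sym2 (Fin n)),
      G.IsAcyclic ∧ (∀ L, IsInput Δ L G es) ∧ e ∈ G.edgeSet ∧
        (A n).colourProb es e ≤ ENNReal.ofReal (1 - (Real.log Δ / 12 - 1) / Δ) := by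
  classical
  by_contra hcon
  push Not at hcon
  have hΔ0 : (0 : ℝ) < Δ := by exact_mod_cast hΔ
  set δ : ℝ := (Real.log Δ / 12 - 1) / Δ with hδ
  have key : ∀ σ : List (Fin (2 * Δ)), σ.Nodup → σ.length = Δ →
      ∀ e ∈ inst (cc Δ) (xx Δ) (stars Δ) σ,
        1 - δ ≤ (A (n0 Δ)).mean (inst (cc Δ) (xx Δ) (stars Δ) σ) (ind e) := by
    intro σ hσ hlen e he
    have h1 := hcon (n0 Δ) (forest σ) (inst (cc Δ) (xx Δ) (stars Δ) σ) e (forest_acyclic σ)
      (fun L => forest_input hΔ L σ hσ hlen)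
      (((forest_input hΔ 0 σ hσ hlen).2.2.2 e).mp he)
    rw [colourProb_eq] at h1
    by_contra h2
    push Not at h2
    exact absurd (ENNReal.ofReal_le_ofReal h2.le) (not_le.mpr h1)
  have h1 := core (cc Δ) (xx Δ) (A (n0 Δ)) cc_inj cc_ne_xx (stars Δ) xx_stars stars_nodup
    (cnt_stars hΔ) le_rfl hΔ δ key
  have h2 := log_le_Hn Δ
  have h3 : δ * Δ = Real.log Δ / 12 - 1 := by rw [hδ]; field_simp
  -- `δ` is not negative, since the means are at most one
  have h4 : 0 ≤ δ := by
    obtain ⟨σ, hσ, hlen⟩ : ∃ σ : List (Fin (2 * Δ)), σ.Nodup ∧ σ.length = Δ := by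
      refine ⟨(List.finRange (2 * Δ)).take Δ, (List.nodup_finRange _).sublist
        (List.take_sublist _ _), ?_⟩
      rw [List.length_take, List.length_finRange]
      omega
    obtain ⟨j, hj⟩ : ∃ j, j ∈ σ := by
      apply List.exists_mem_of_length_pos
      omega
    have h5 := key σ hσ hlen s(xx Δ, cc Δ j) (mem_inst.mpr (Or.inl ⟨j, hj, rfl⟩))
    have h6 : (A (n0 Δ)).mean (inst (cc Δ) (xx Δ) (stars Δ) σ) (ind s(xx Δ, cc Δ j)) ≤ 1 := by
      have h7 := mean_mono (A (n0 Δ)) (inst (cc Δ) (xx Δ) (stars Δ) σ) (ind s(xx Δ, cc Δ j))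
        (fun _ => 1) (fun h _ => ind_le_one _ h)
      rwa [mean_const] at h7
    linarith
  nlinarith

/-- the upper bound for `p(Δ, L)` -/
theorem p_le (Δ : ℕ) (hΔ : 1 ≤ Δ) (L : ℕ) :
    p Δ L ≤ ENNReal.ofReal (1 - (Real.log Δ / 12 - 1) / Δ) := by
  unfold p
  refine iSup_le fun A => ?_
  obtain ⟨n, G, es, e, -, h1, h2, h3⟩ := lower Δ hΔ A
  refine le_trans ?_ h3
  unfold q
  exact iInf_le_of_le n (iInf_le_of_le G (iInf_le_of_le es (iInf_le_of_le (h1 L)
    (iInf_le_of_le e (iInf_le _ h2)))))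

end Pool.Agent.KS6_81.OE
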