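import Pool.Agent.KS6_81.OE.Defs

/-!
A lower bound for the failure probability of every online algorithm, the probabilistic part: stars
with `Δ - 1` edges, and afterwards a new vertex joined to the centres of `Δ` of the stars, which are
chosen at random.
-/

open scoped ENNReal BigOperators
open Finset

namespace Pool.Agent.KS6_81.OE

variable {V : Type} {Δ : ℕ}

/-! ### Counting -/

open Classical in
/-- the colours which no edge with the property `P` has -/
noncomputable def free (P : Sym2 V → Prop) (h : Hist V Δ) : Finset (Fin Δ) :=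
  Finset.univ.filter fun c => ∀ e, (e, some c) ∈ h → ¬ P e

open Classical in
/-- the number of uncoloured edges with the property `P` -/
noncomputable def unc (P : Sym2 V → Prop) : Hist V Δ → ℕ
  | [] => 0
  | (e, o) :: h => unc P h + if P e ∧ o = none then 1 else 0

open Classical in
/-- the number of edges with the property `P` -/
noncomputable def cnt (P : Sym2 V → Prop) : List (Sym2 V) → ℕ
  | [] => 0
  | e :: es => cnt P es + if P e then 1 else 0

lemma free_nil (P : Sym2 V → Prop) : free P ([] : Hist V Δ) = Finset.univ := by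
  ext c; simp [free]

lemma free_not {P : Sym2 V → Prop} {e : Sym2 V} (he : ¬ P e) (o : Option (Fin Δ))
    (h : Hist V Δ) : free P ((e, o) :: h) = free P h := by
  ext c
  simp only [free, Finset.mem_filter, Finset.mem_univ, true_and, List.mem_cons]
  constructor
  · intro h1 e' he'
    exact h1 e' (Or.inr he')
  · rintro h1 e' (he' | he')
    · obtain ⟨rfl, -⟩ := Prod.mk.inj he'
      exact he
    · exact h1 e' he'

lemma free_none (P : Sym2 V → Prop) (e : Sym2 V) (h : Hist V Δ) :
    free P ((e, none) :: h) = free P h := by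
  ext c
  simp only [free, Finset.mem_filter, Finset.mem_univ, true_and, List.mem_cons]
  constructor
  · intro h1 e' he'
    exact h1 e' (Or.inr he')
  · rintro h1 e' (he' | he')
    · exact absurd (Prod.mk.inj he').2 (by simp)
    · exact h1 e' he'

lemma free_some {P : Sym2 V → Prop} {e : Sym2 V} (he : P e) (c : Fin Δ) (h : Hist V Δ) :
    free P ((e, some c) :: h) = (free P h).erase c := by
  ext c'
  simp only [free, Finset.mem_filter, Finset.mem_univ, true_and, List.mem_cons, Finset.mem_erase]
  constructor
  · intro h1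
    refine ⟨?_, fun e' he' => h1 e' (Or.inr he')⟩
    rintro rfl
    exact h1 e (Or.inl rfl) he
  · rintro ⟨h0, h1⟩ e' (he' | he')
    · exact absurd (Option.some.inj (Prod.mk.inj he').2) h0
    · exact h1 e' he'

lemma mem_free_of_law (A : OnlineAlgorithm V Δ) (h : Hist V Δ) (e : Sym2 V) (c : Fin Δ)
    (hc : A.law h e (some c) ≠ 0) (w : V) (hw : w ∈ e) (P : Sym2 V → Prop)
    (hP : ∀ e', P e' → w ∈ e') : c ∈ free P h := by
  simp only [free, Finset.mem_filter, Finset.mem_univ, true_and]
  intro e' he' h1
  exact A.proper h e c hc e' he' w ⟨hw, hP e' h1⟩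

lemma free_card (A : OnlineAlgorithm V Δ) (w : V) (es : List (Sym2 V)) (h : Hist V Δ)
    (hv : Val A es h) :
    (free (fun e => w ∈ e) h).card + cnt (fun e => w ∈ e) es = Δ + unc (fun e => w ∈ e) h := by
  induction es generalizing h with
  | nil =>
    have : h = [] := hv
    subst this
    simp [free_nil, cnt, unc]
  | cons e es ih =>
    obtain ⟨h', o, rfl, hv', ho⟩ := hv
    have ih' := ih h' hv'
    by_cases hw : w ∈ e
    · cases o with
      | none =>
        rw [free_none]
        simp only [cnt, unc, hw, and_self, if_true]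
        omega
      | some c =>
        have hc := mem_free_of_law A h' e c ho w hw (fun e => w ∈ e) (fun _ h => h)
        rw [free_some (P := fun e => w ∈ e) hw, Finset.card_erase_of_mem hc]
        have h1 : 1 ≤ (free (fun e => w ∈ e) h').card := Finset.card_pos.mpr ⟨c, hc⟩
        simp only [cnt, unc, hw, if_true, reduceCtorEq, and_false, if_false]
        omega
    · rw [free_not (P := fun e => w ∈ e) hw]
      simp only [cnt, unc, hw, if_false, false_and, add_zero]
      exact ih'

lemma Val_map (A : OnlineAlgorithm V Δ) (es : List (Sym2 V)) (h : Hist V Δ)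
    (hv : Val A es h) : h.map Prod.fst = es := by
  induction es generalizing h with
  | nil =>
    have : h = [] := hv
    subst this
    rfl
  | cons e es ih =>
    obtain ⟨h', o, rfl, hv', ho⟩ := hv
    simp [ih h' hv']

lemma ind_zero (A : OnlineAlgorithm V Δ) (es : List (Sym2 V)) (h : Hist V Δ)
    (hv : Val A es h) (e : Sym2 V) (he : e ∉ es) : ind e h = 0 := by
  unfold ind
  rw [if_neg]
  rintro ⟨c, hc⟩
  apply he
  rw [← Val_map A es h hv]
  exact List.mem_map_of_mem (f := Prod.fst) hc

/-- the expected number of uncoloured edges with the property `P` -/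
lemma mean_unc (A : OnlineAlgorithm V Δ) (P : Sym2 V → Prop) (δ : ℝ) (es' es : List (Sym2 V))
    (hnd : (es' ++ es).Nodup)
    (hδ : ∀ e ∈ es, P e → 1 - δ ≤ A.mean (es' ++ es) (ind e)) :
    A.mean es (fun h => (unc P h : ℝ)) ≤ δ * cnt P es := by
  induction es generalizing es' with
  | nil => simp [OnlineAlgorithm.mean, unc, cnt]
  | cons e es ih =>
    have hnd2 : (es' ++ [e] ++ es).Nodup := by simpa using hnd
    have ih' := ih (es' ++ [e]) hnd2 (by
      intro e' he' hPe
      have := hδ e' (List.mem_cons_of_mem _ he') hPe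
      simpa using this)
    have hnd1 : (e :: es).Nodup := (List.nodup_append.mp hnd).2.1
    have hnot : e ∉ es' := fun h => (List.nodup_append.mp hnd).2.2 e h e List.mem_cons_self rfl
    have hes : e ∉ es := (List.nodup_cons.mp hnd1).1
    by_cases hPe : P e
    · have h1 : A.mean (e :: es) (fun h => (unc P h : ℝ))
          ≤ A.mean (e :: es) (fun h => (unc P (h.tail) : ℝ) + (1 - ind e h)) := by
        refine mean_mono A _ _ _ fun h hv => ?_
        obtain ⟨h', o, rfl, hv', ho⟩ := hv
        cases o with
        | none =>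
          have h2 : ind e ((e, none) :: h') = 0 := by
            have h3 : ind e ((e, none) :: h') = ind e h' := by
              unfold ind
              have : (∃ c : Fin Δ, (e, some c) ∈ ((e, none) :: h' : Hist V Δ))
                  ↔ ∃ c : Fin Δ, (e, some c) ∈ h' := by
                constructor
                · rintro ⟨c, hc⟩
                  rcases List.mem_cons.mp hc with hc | hc
                  · exact absurd (Prod.mk.inj hc).2 (by simp)
                  · exact ⟨c, hc⟩
                · rintro ⟨c, hc⟩
                  exact ⟨c, List.mem_cons_of_mem _ hc⟩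
              by_cases h1 : ∃ c : Fin Δ, (e, some c) ∈ h'
              · rw [if_pos (this.mpr h1), if_pos h1]
              · rw [if_neg (fun h2 => h1 (this.mp h2)), if_neg h1]
            rw [h3, ind_zero A es h' hv' e hes]
          rw [h2]
          simp [unc, hPe]
        | some c =>
          have h2 := ind_le_one e ((e, some c) :: h')
          simp only [unc, reduceCtorEq, and_false, if_false, add_zero, List.tail_cons]
          linarith
      rw [mean_add, mean_sub, mean_const] at h1
      have h2 : A.mean (e :: es) (fun h => (unc P (h.tail) : ℝ))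
          = A.mean es (fun h => (unc P h : ℝ)) :=
        mean_cons_indep A e es _ _ fun o h => rfl
      rw [h2] at h1
      have h3 := hδ e List.mem_cons_self hPe
      rw [mean_ind_append A es' (e :: es) e hnot] at h3
      have h4 : (cnt P (e :: es) : ℝ) = cnt P es + 1 := by simp [cnt, hPe]
      rw [h4]
      linarith
    · have h1 : A.mean (e :: es) (fun h => (unc P h : ℝ)) = A.mean es (fun h => (unc P h : ℝ)) :=
        mean_cons_indep A e es _ _ fun o h => by simp [unc, hPe]
      have h4 : (cnt P (e :: es) : ℝ) = cnt P es := by simp [cnt, hPe]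
      rw [h1, h4]
      exact ih'

/-! ### The potential -/

/-- harmonic numbers -/
noncomputable def Hn (r : ℕ) : ℝ := ∑ i ∈ Finset.range r, 1 / ((i : ℝ) + 1)

lemma Hn_succ (r : ℕ) : Hn (r + 1) = Hn r + 1 / ((r : ℝ) + 1) := by
  unfold Hn
  rw [Finset.sum_range_succ]

lemma Hn_le (r : ℕ) : Hn r ≤ r := by
  unfold Hn
  calc ∑ i ∈ Finset.range r, 1 / ((i : ℝ) + 1) ≤ ∑ i ∈ Finset.range r, (1 : ℝ) := by
        refine Finset.sum_le_sum fun i _ => ?_
        rw [div_le_one (by positivity)]
        have : (0 : ℝ) ≤ i := Nat.cast_nonneg _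
        linarith
    _ = r := by simp

section pot

variable {N : ℕ} (cen : Fin N → V) (x : V)

/-- the colours which are free at the `i`-th centre, the edges at `x` not being counted -/
noncomputable def Fr (h : Hist V Δ) (i : Fin N) : Finset (Fin Δ) :=
  free (fun e => cen i ∈ e ∧ x ∉ e) h

/-- the proportion of the centres at which the colour `c` is free -/
noncomputable def fr (h : Hist V Δ) (c : Fin Δ) : ℝ :=
  ((Finset.univ.filter fun i => c ∈ Fr cen x h i).card : ℝ) / N

/-- the colours which are free at `x` -/
noncomputable def Rx (h : Hist V Δ) : Finset (Fin Δ) := free (fun e => x ∈ e) h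

/-- the potential -/
noncomputable def Psi (h : Hist V Δ) : ℝ :=
  ∑ c ∈ Rx x h, fr cen x h c - 3 / 32 * Hn (Rx x h).card - 1 / 32 * unc (fun e => x ∈ e) h

lemma fr_nonneg (h : Hist V Δ) (c : Fin Δ) : 0 ≤ fr cen x h c := by
  unfold fr; positivity

lemma Fr_cons {e : Sym2 V} (he : x ∈ e) (o : Option (Fin Δ)) (h : Hist V Δ) (i : Fin N) :
    Fr cen x ((e, o) :: h) i = Fr cen x h i := by
  unfold Fr
  exact free_not (fun h1 => h1.2 he) o h

lemma fr_cons {e : Sym2 V} (he : x ∈ e) (o : Option (Fin Δ)) (h : Hist V Δ) (c : Fin Δ) :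
    fr cen x ((e, o) :: h) c = fr cen x h c := by
  unfold fr
  simp only [Fr_cons cen x he]

lemma Psi_none {e : Sym2 V} (he : x ∈ e) (h : Hist V Δ) :
    Psi cen x ((e, none) :: h) = Psi cen x h - 1 / 32 := by
  unfold Psi Rx
  rw [free_none]
  simp only [fr_cons cen x he, unc, he, and_self, if_true]
  push_cast
  ring

lemma Psi_some {e : Sym2 V} (he : x ∈ e) (h : Hist V Δ) (c : Fin Δ) (hc : c ∈ Rx x h) :
    Psi cen x ((e, some c) :: h) = Psi cen x h - fr cen x h c + 3 / 32 * (1 / (Rx x h).card) := by
  have h1 : Rx x ((e, some c) :: h) = (Rx x h).erase c := by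
    unfold Rx
    exact free_some (P := fun e => x ∈ e) he c h
  unfold Psi
  rw [h1, Finset.card_erase_of_mem hc]
  have h2 : ∑ c' ∈ (Rx x h).erase c, fr cen x ((e, some c) :: h) c'
      = ∑ c' ∈ Rx x h, fr cen x h c' - fr cen x h c := by
    simp only [fr_cons cen x he]
    rw [← Finset.add_sum_erase _ _ hc]
    ring
  rw [h2]
  obtain ⟨r, hr⟩ : ∃ r, (Rx x h).card = r + 1 :=
    Nat.exists_eq_succ_of_ne_zero (Finset.card_ne_zero_of_mem hc)
  rw [hr, Nat.add_sub_cancel, Hn_succ]
  simp only [unc, reduceCtorEq, and_false, if_false, add_zero]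
  push_cast
  ring

/-- the averaged potential does not increase -/
lemma step (A : OnlineAlgorithm V Δ) (h : Hist V Δ) (J : Finset (Fin N)) (hJ : N ≤ 2 * J.card)
    (hN : 0 < N) (hr : 1 ≤ (Rx x h).card) :
    ∑ j ∈ J, ∑ o, (A.law h s(x, cen j) o).toReal
      * (Psi cen x ((s(x, cen j), o) :: h) - Psi cen x h) ≤ 0 := by
  classical
  set r : ℝ := ((Rx x h).card : ℝ) with hrdef
  have hr1 : 1 ≤ r := by rw [hrdef]; exact_mod_cast hr
  have hr0 : 0 < r := by linarith
  set Low := (Rx x h).filter fun c => fr cen x h c < 1 / (8 * r) with hLow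
  set Bad := J.filter fun j => (Fr cen x h j ∩ Low).Nonempty with hBad
  have hNr : (0 : ℝ) < N := by exact_mod_cast hN
  -- the number of bad indices
  have hBadcard : 4 * (Bad.card : ℝ) ≤ J.card := by
    have h1 : Bad.card ≤ ∑ c ∈ Low, (Finset.univ.filter fun i => c ∈ Fr cen x h i).card := by
      calc Bad.card ≤ (Low.biUnion fun c => Finset.univ.filter fun i => c ∈ Fr cen x h i).card := by
            apply Finset.card_le_card
            intro j hj
            obtain ⟨c, hc⟩ := (Finset.mem_filter.mp hj).2
            rw [Finset.mem_inter] at hc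
            rw [Finset.mem_biUnion]
            exact ⟨c, hc.2, by simpa using hc.1⟩
        _ ≤ _ := Finset.card_biUnion_le
    have h2 : (Bad.card : ℝ) ≤ ∑ c ∈ Low, (N : ℝ) * (1 / (8 * r)) := by
      calc (Bad.card : ℝ)
          ≤ ((∑ c ∈ Low, (Finset.univ.filter fun i => c ∈ Fr cen x h i).card : ℕ) : ℝ) := by
            exact_mod_cast h1
        _ = ∑ c ∈ Low, ((Finset.univ.filter fun i => c ∈ Fr cen x h i).card : ℝ) := by
            push_cast; rfl
        _ ≤ _ := by
            refine Finset.sum_le_sum fun c hc => ?_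
            have h3 := (Finset.mem_filter.mp hc).2
            unfold fr at h3
            rw [div_lt_iff₀ hNr] at h3
            linarith
    have h4 : (Low.card : ℝ) ≤ r := by
      rw [hrdef]
      exact_mod_cast Finset.card_filter_le _ _
    rw [Finset.sum_const, nsmul_eq_mul] at h2
    have h5 : (Low.card : ℝ) * ((N : ℝ) * (1 / (8 * r))) ≤ r * ((N : ℝ) * (1 / (8 * r))) :=
      mul_le_mul_of_nonneg_right h4 (by positivity)
    have h6 : r * ((N : ℝ) * (1 / (8 * r))) = N / 8 := by field_simp
    have h7 : (N : ℝ) ≤ 2 * J.card := by exact_mod_cast hJ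
    linarith
  -- the contribution of each index
  have hterm : ∀ j ∈ J, ∑ o, (A.law h s(x, cen j) o).toReal
      * (Psi cen x ((s(x, cen j), o) :: h) - Psi cen x h)
      ≤ if j ∈ Bad then 3 / (32 * r) else -1 / (32 * r) := by
    intro j hj
    have hx : x ∈ s(x, cen j) := Sym2.mem_mk_left _ _
    have hcj : cen j ∈ s(x, cen j) := Sym2.mem_mk_right _ _
    have h32 : (1 : ℝ) / (32 * r) ≤ 1 / 32 := by
      apply div_le_div_of_nonneg_left zero_le_one (by norm_num)
      linarith
    have key : ∀ t : ℝ, -1 / 32 ≤ t → (∀ c, A.law h s(x, cen j) (some c) ≠ 0 →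
        3 / 32 * (1 / r) - fr cen x h c ≤ t) → ∑ o, (A.law h s(x, cen j) o).toReal
        * (Psi cen x ((s(x, cen j), o) :: h) - Psi cen x h) ≤ t := by
      intro t ht htc
      calc ∑ o, (A.law h s(x, cen j) o).toReal
            * (Psi cen x ((s(x, cen j), o) :: h) - Psi cen x h)
          ≤ ∑ o, (A.law h s(x, cen j) o).toReal * t := by
            refine Finset.sum_le_sum fun o _ => ?_
            by_cases ho : A.law h s(x, cen j) o = 0
            · rw [ho]; simp
            · apply mul_le_mul_of_nonneg_left _ ENNReal.toReal_nonneg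
              cases o with
              | none =>
                rw [Psi_none cen x hx]; linarith
              | some c =>
                have hc : c ∈ Rx x h := mem_free_of_law A h _ c ho x hx _ (fun _ h => h)
                rw [Psi_some cen x hx h c hc]
                have := htc c ho
                rw [← hrdef]
                linarith
        _ = t := by rw [← Finset.sum_mul, law_sum, one_mul]
    split_ifs with hb
    · apply key
      · have : 0 ≤ 3 / (32 * r) := by positivity
        linarith
      · intro c _
        have h1 := fr_nonneg cen x h c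
        have h2 : 3 / 32 * (1 / r) = 3 / (32 * r) := by field_simp
        linarith
    · apply key
      · have : -1 / (32 * r) = -(1 / (32 * r)) := by ring
        linarith
      · intro c ho
        have hc : c ∈ Rx x h := mem_free_of_law A h _ c ho x hx _ (fun _ h => h)
        have hcF : c ∈ Fr cen x h j :=
          mem_free_of_law A h _ c ho (cen j) hcj _ (fun _ h => h.1)
        have h1 : ¬ fr cen x h c < 1 / (8 * r) := by
          intro h1
          apply hb
          rw [hBad, Finset.mem_filter]
          refine ⟨hj, c, ?_⟩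
          rw [Finset.mem_inter, hLow, Finset.mem_filter]
          exact ⟨hcF, hc, h1⟩
        push Not at h1
        have h2 : 3 / 32 * (1 / r) - 1 / (8 * r) = -1 / (32 * r) := by field_simp; ring
        linarith
  refine (Finset.sum_le_sum hterm).trans ?_
  have h1 : ∀ i ∈ J, (if i ∈ Bad then 3 / (32 * r) else -1 / (32 * r))
      = -1 / (32 * r) + if i ∈ Bad then 4 / (32 * r) else 0 := by
    intro i _
    split_ifs <;> ring
  rw [Finset.sum_congr rfl h1, Finset.sum_add_distrib, Finset.sum_ite_mem, Finset.sum_const,
    Finset.sum_const, nsmul_eq_mul, nsmul_eq_mul,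
    Finset.inter_eq_right.mpr (Finset.filter_subset _ _)]
  have h2 : (J.card : ℝ) * (-1 / (32 * r)) + (Bad.card : ℝ) * (4 / (32 * r))
      = (4 * Bad.card - J.card) * (1 / (32 * r)) := by ring
  rw [h2]
  exact mul_nonpos_of_nonpos_of_nonneg (by linarith) (by positivity)

/-- the edges at `x` and before them the edges `es` -/
def inst (es : List (Sym2 V)) (σ : List (Fin N)) : List (Sym2 V) :=
  σ.map (fun j => s(x, cen j)) ++ es

lemma cnt_append (P : Sym2 V → Prop) (es' es : List (Sym2 V)) :
    cnt P (es' ++ es) = cnt P es' + cnt P es := by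
  induction es' with
  | nil => simp [cnt]
  | cons a es' ih =>
    simp only [List.cons_append, cnt, ih]
    ring

lemma cnt_zero (P : Sym2 V → Prop) (es : List (Sym2 V)) (h : ∀ e ∈ es, ¬ P e) :
    cnt P es = 0 := by
  induction es with
  | nil => simp [cnt]
  | cons a es ih =>
    simp only [cnt, h a List.mem_cons_self, if_false, add_zero]
    exact ih fun e he => h e (List.mem_cons_of_mem _ he)

lemma cnt_inst (es : List (Sym2 V)) (hes : ∀ e ∈ es, x ∉ e) (σ : List (Fin N)) :
    cnt (fun e => x ∈ e) (inst cen x es σ) = σ.length := by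
  unfold inst
  rw [cnt_append, cnt_zero (fun e => x ∈ e) es hes, add_zero]
  induction σ with
  | nil => simp [cnt]
  | cons j σ ih => simp [cnt, ih]

/-- a good choice of the indices -/
lemma choice (A : OnlineAlgorithm V Δ) (es : List (Sym2 V)) (hes : ∀ e ∈ es, x ∉ e)
    (hN : 2 * Δ ≤ N) (k : ℕ) (hk : k ≤ Δ) :
    ∃ σ : List (Fin N), σ.Nodup ∧ σ.length = k ∧
      A.mean (inst cen x es σ) (Psi cen x) ≤ A.mean es (Psi cen x) := by
  classical
  induction k with
  | zero => exact ⟨[], List.nodup_nil, rfl, le_of_eq rfl⟩
  | succ k ih =>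
    obtain ⟨σ, hσ, hlen, hle⟩ := ih (by omega)
    set J : Finset (Fin N) := Finset.univ \ σ.toFinset with hJdef
    have hJ1 : J.card = N - k := by
      rw [hJdef, Finset.card_sdiff_of_subset (Finset.subset_univ _), Finset.card_univ,
        Fintype.card_fin, List.toFinset_card_of_nodup hσ, hlen]
    have hJ : N ≤ 2 * J.card := by omega
    have hJne : J.Nonempty := Finset.card_pos.mp (by omega)
    have hsum : ∑ j ∈ J, (A.mean (inst cen x es (j :: σ)) (Psi cen x)
        - A.mean (inst cen x es σ) (Psi cen x)) ≤ 0 := by
      have h1 : ∀ j, A.mean (inst cen x es (j :: σ)) (Psi cen x)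
          - A.mean (inst cen x es σ) (Psi cen x)
          = A.mean (inst cen x es σ) (fun h => ∑ o, (A.law h s(x, cen j) o).toReal
            * (Psi cen x ((s(x, cen j), o) :: h) - Psi cen x h)) := by
        intro j
        have h2 : inst cen x es (j :: σ) = s(x, cen j) :: inst cen x es σ := rfl
        rw [h2]
        simp only [OnlineAlgorithm.mean]
        rw [← mean_sub]
        congr 1
        ext h
        simp only [mul_sub, Finset.sum_sub_distrib]
        rw [← Finset.sum_mul, law_sum, one_mul]
      simp only [h1]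
      rw [← mean_sum]
      have h3 : A.mean (inst cen x es σ) (fun h => ∑ j ∈ J, ∑ o, (A.law h s(x, cen j) o).toReal
            * (Psi cen x ((s(x, cen j), o) :: h) - Psi cen x h))
          ≤ A.mean (inst cen x es σ) (fun _ => 0) := by
        refine mean_mono A _ _ _ fun h hv => ?_
        apply step cen x A h J hJ (by omega)
        have h4 := free_card A x _ h hv
        rw [cnt_inst cen x es hes σ, hlen] at h4
        unfold Rx
        omega
      rwa [mean_const] at h3
    obtain ⟨j, hj, hj2⟩ := Finset.exists_le_of_sum_le hJne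
      (f := fun j => A.mean (inst cen x es (j :: σ)) (Psi cen x)
        - A.mean (inst cen x es σ) (Psi cen x)) (g := fun _ => (0 : ℝ)) (by simpa using hsum)
    refine ⟨j :: σ, ?_, by simp [hlen], by linarith⟩
    rw [List.nodup_cons]
    refine ⟨?_, hσ⟩
    intro h
    rw [hJdef, Finset.mem_sdiff] at hj
    exact hj.2 (List.mem_toFinset.mpr h)

/-- **the inequality for the failure probability `δ`** -/
theorem core (A : OnlineAlgorithm V Δ) (hcen : Function.Injective cen) (hcx : ∀ i, cen i ≠ x)
    (es : List (Sym2 V)) (hes : ∀ e ∈ es, x ∉ e) (hnd : es.Nodup)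
    (hcnt : ∀ i, cnt (fun e => cen i ∈ e) es + 1 = Δ) (hN : 2 * Δ ≤ N) (hΔ : 1 ≤ Δ) (δ : ℝ)
    (hδ : ∀ σ : List (Fin N), σ.Nodup → σ.length = Δ → ∀ e ∈ inst cen x es σ,
      1 - δ ≤ A.mean (inst cen x es σ) (ind e)) :
    3 / 32 * Hn Δ ≤ 1 + δ * (Δ - 1) + 1 / 8 * (δ * Δ) := by
  classical
  obtain ⟨σ, hσ, hlen, hle⟩ := choice cen x A es hes hN Δ le_rfl
  have hN0 : 0 < N := by omega
  have hNr : (0 : ℝ) < N := by exact_mod_cast hN0
  have hndT : (inst cen x es σ).Nodup := by
    unfold inst
    rw [List.nodup_append]
    refine ⟨?_, hnd, ?_⟩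
    · apply List.Nodup.map _ hσ
      intro i j hij
      simp only at hij
      rw [Sym2.eq_iff] at hij
      rcases hij with ⟨-, h⟩ | ⟨h, -⟩
      · exact hcen h
      · exact absurd h.symm (hcx j)
    · intro a ha b hb hab
      subst hab
      obtain ⟨j, -, rfl⟩ := List.mem_map.mp ha
      exact hes _ hb (Sym2.mem_mk_left _ _)
  -- the end
  have hend : -(1 / 8 * (δ * Δ)) ≤ A.mean (inst cen x es σ) (Psi cen x) := by
    have h1 : A.mean (inst cen x es σ) (fun h => (-1 / 8 : ℝ) * (unc (fun e => x ∈ e) h : ℝ))
        ≤ A.mean (inst cen x es σ) (Psi cen x) := by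
      refine mean_mono A _ _ _ fun h hv => ?_
      have h4 := free_card A x _ h hv
      rw [cnt_inst cen x es hes σ, hlen] at h4
      have h5 : (Rx x h).card = unc (fun e => x ∈ e) h := by
        unfold Rx; omega
      unfold Psi
      have h6 : 0 ≤ ∑ c ∈ Rx x h, fr cen x h c := Finset.sum_nonneg fun c _ => fr_nonneg cen x h c
      have h7 := Hn_le (Rx x h).card
      rw [h5] at h7 ⊢
      linarith
    rw [mean_smul] at h1
    have h2 := mean_unc A (fun e => x ∈ e) δ [] (inst cen x es σ) (by simpa using hndT)
      (fun e he _ => by simpa using hδ σ hσ hlen e he)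
    rw [cnt_inst cen x es hes σ, hlen] at h2
    linarith
  -- the beginning
  have hbeg : A.mean es (Psi cen x) ≤ 1 + δ * (Δ - 1) - 3 / 32 * Hn Δ := by
    have h1 : A.mean es (Psi cen x) ≤ A.mean es (fun h =>
        (1 / (N : ℝ)) * ∑ i : Fin N, (1 + (unc (fun e => cen i ∈ e) h : ℝ)) - 3 / 32 * Hn Δ) := by
      refine mean_mono A _ _ _ fun h hv => ?_
      have h2 : Rx x h = Finset.univ := by
        ext c
        simp only [Rx, free, Finset.mem_filter, Finset.mem_univ, true_and, iff_true]
        intro e he
        apply hes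
        rw [← Val_map A es h hv]
        exact List.mem_map_of_mem (f := Prod.fst) he
      have h3 : ∀ i, Fr cen x h i = free (fun e => cen i ∈ e) h := by
        intro i
        ext c
        simp only [Fr, free, Finset.mem_filter, Finset.mem_univ, true_and]
        refine forall_congr' fun e => forall_congr' fun he => ?_
        have : x ∉ e := by
          apply hes
          rw [← Val_map A es h hv]
          exact List.mem_map_of_mem (f := Prod.fst) he
        tauto
      have h4 : ∑ c ∈ Rx x h, fr cen x h c
          = (1 / (N : ℝ)) * ∑ i : Fin N, (1 + (unc (fun e => cen i ∈ e) h : ℝ)) := by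
        rw [h2]
        unfold fr
        rw [← Finset.sum_div, ← Nat.cast_sum]
        have h5 : ∑ c : Fin Δ, (Finset.univ.filter fun i => c ∈ Fr cen x h i).card
            = ∑ i : Fin N, (Fr cen x h i).card := by
          simp only [Finset.card_eq_sum_ones, Finset.sum_filter]
          rw [Finset.sum_comm]
          refine Finset.sum_congr rfl fun i _ => ?_
          rw [← Finset.sum_filter]
          congr 1
          ext c
          simp
        rw [h5, Nat.cast_sum, div_eq_inv_mul, one_div]
        congr 1
        refine Finset.sum_congr rfl fun i _ => ?_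
        have h6 := free_card A (cen i) _ h hv
        have h7 := hcnt i
        have h8 : (free (fun e => cen i ∈ e) h).card = 1 + unc (fun e => cen i ∈ e) h := by omega
        rw [h3, h8]
        push_cast
        ring
      unfold Psi
      rw [h4, h2, Finset.card_univ, Fintype.card_fin]
      have : (0 : ℝ) ≤ unc (fun e => x ∈ e) h := Nat.cast_nonneg _
      linarith
    refine h1.trans ?_
    rw [mean_sub, mean_smul, mean_const, mean_sum]
    simp only [mean_add, mean_const]
    have h2 : ∀ i : Fin N, A.mean es (fun h => (unc (fun e => cen i ∈ e) h : ℝ))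
        ≤ δ * (Δ - 1) := by
      intro i
      have h3 := mean_unc A (fun e => cen i ∈ e) δ (σ.map (fun j => s(x, cen j))) es hndT
        (fun e he _ => hδ σ hσ hlen e (List.mem_append_right _ he))
      have h4 : (cnt (fun e => cen i ∈ e) es : ℝ) = Δ - 1 := by
        have := hcnt i
        have h5 : ((cnt (fun e => cen i ∈ e) es + 1 : ℕ) : ℝ) = Δ := by rw [this]
        push_cast at h5
        linarith
      rwa [h4] at h3
    have h3 : ∑ i : Fin N, (1 + A.mean es (fun h => (unc (fun e => cen i ∈ e) h : ℝ)))
        ≤ ∑ i : Fin N, (1 + δ * (Δ - 1)) :=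
      Finset.sum_le_sum fun i _ => by linarith [h2 i]
    rw [Finset.sum_const, Finset.card_univ, Fintype.card_fin, nsmul_eq_mul] at h3
    have h4 := mul_le_mul_of_nonneg_left h3 (by positivity : (0 : ℝ) ≤ 1 / (N : ℝ))
    have h5 : 1 / (N : ℝ) * (N * (1 + δ * (Δ - 1))) = 1 + δ * (Δ - 1) := by field_simp
    rw [h5] at h4
    linarith
  linarith

end pot

end Pool.Agent.KS6_81.OE
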