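import Pool.Agent.KS6_81.OE.Core

/-!
Moments of the weights along the run. (Partly adapted from the file `Helper482_OEC/Moments.lean`
of an earlier run; the new part is the potential argument, `pot_gen` below.)
-/

open scoped BigOperators
open Finset

namespace Pool.Agent.KS6_81.OE

variable {n Δ : ℕ} {D K : ℝ}

lemma Ex_W1 (hP : Par D K) (es : List (Sym2 (Fin n))) (x : Fin n) (c : Fin Δ) :
    Ex D K es (fun h => W D K h x c) = 1 := by
  induction es with
  | nil => rfl
  | cons e es ih =>
    simp only [Ex]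
    rw [← ih]
    congr 1
    ext h
    exact step_one hP (W_bd hP h) e x c

lemma Ex_W2 (hP : Par D K) (es : List (Sym2 (Fin n))) (x y : Fin n) (c : Fin Δ)
    (hxy : ∀ e ∈ es, ¬ (x ∈ e ∧ y ∈ e)) :
    Ex D K es (fun h => W D K h x c * W D K h y c) = 1 := by
  induction es with
  | nil => simp [Ex, W]
  | cons e es ih =>
    simp only [Ex]
    rw [← ih fun e he => hxy e (List.mem_cons_of_mem _ he)]
    congr 1
    ext h
    exact step_two hP (W_bd hP h) e x y (hxy e List.mem_cons_self) c

lemma Ex_W4 (hP : Par D K) (es : List (Sym2 (Fin n))) (x y : Fin n) {c c' : Fin Δ} (hc : c ≠ c')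
    (hxy : ∀ e ∈ es, ¬ (x ∈ e ∧ y ∈ e)) :
    Ex D K es (fun h => W D K h x c * W D K h y c * (W D K h x c' * W D K h y c')) ≤ 1 := by
  induction es with
  | nil => simp [Ex, W]
  | cons e es ih =>
    simp only [Ex]
    refine le_trans ?_ (ih fun e he => hxy e (List.mem_cons_of_mem _ he))
    refine Ex_mono hP es _ _ fun h => ?_
    exact step_four hP (W_bd hP h) e x y (hxy e List.mem_cons_self) hc

lemma one_sub_kap_pos (hP : Par D K) : 0 < 1 - K ^ 2 / D := by linarith [kap_le hP]

open Classical in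
/-- the weight of the other endpoint, `0` if `u` is not on the edge -/
noncomputable def inc (w : Wts n Δ) (e : Sym2 (Fin n)) (u : Fin n) (c : Fin Δ) : ℝ :=
  if u ∈ e then ∑ x ∈ Finset.univ.filter (fun x => x ≠ u ∧ x ∈ e), w x c else 0

lemma inc_mk (w : Wts n Δ) {u v : Fin n} (huv : u ≠ v) (c : Fin Δ) :
    inc w s(u, v) u c = w v c := by
  classical
  unfold inc
  rw [if_pos (Sym2.mem_mk_left u v)]
  have : Finset.univ.filter (fun x => x ≠ u ∧ x ∈ s(u, v)) = {v} := by
    ext x
    simp only [Finset.mem_filter, Finset.mem_univ, true_and, Sym2.mem_iff, Finset.mem_singleton]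
    constructor
    · rintro ⟨h1, h2 | h2⟩
      · exact absurd h2 h1
      · exact h2
    · rintro rfl
      exact ⟨huv.symm, Or.inr rfl⟩
  rw [this, Finset.sum_singleton]

lemma inc_not (w : Wts n Δ) {u : Fin n} {e : Sym2 (Fin n)} (hu : u ∉ e) (c : Fin Δ) :
    inc w e u c = 0 := by
  unfold inc; rw [if_neg hu]

variable (D K)

/-- sum of the weights of the neighbours at the arrival of the edges -/
noncomputable def S : History n Δ → Fin n → Fin Δ → ℝ
  | [] => fun _ _ => 0
  | (e, _) :: h => fun u c => S h u c + inc (W D K h) e u c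

variable {D K}

open Classical in
/-- number of edges at `u` -/
noncomputable def dg : List (Sym2 (Fin n)) → Fin n → ℕ
  | [] => fun _ => 0
  | e :: es => fun u => dg es u + if u ∈ e then 1 else 0

lemma mem_split {u : Fin n} {e : Sym2 (Fin n)} (hu : u ∈ e) (he : ¬ e.IsDiag) :
    ∃ v, u ≠ v ∧ e = s(u, v) := by
  obtain ⟨v, rfl⟩ := hu
  exact ⟨v, fun h => he (by simp [h]), rfl⟩

lemma Ex_cons_indep (e : Sym2 (Fin n)) (es : List (Sym2 (Fin n))) (f : History n Δ → ℝ)
    (g : History n Δ → ℝ) (hfg : ∀ o h, f ((e, o) :: h) = g h) :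
    Ex D K (e :: es) f = Ex D K es g := by
  simp only [Ex]
  congr 1
  ext h
  simp only [hfg]
  rw [← Finset.sum_mul, wt_sum, one_mul]

lemma Ex_N1 (hP : Par D K) (es : List (Sym2 (Fin n))) (u v : Fin n)
    (huv : ∀ e ∈ es, ¬ (u ∈ e ∧ v ∈ e)) :
    Ex D K es (fun h : History n Δ => ∑ c, W D K h u c * W D K h v c) = Δ := by
  rw [Ex_sum]
  simp only [Ex_W2 hP es u v _ huv]
  simp

lemma Var_N (hP : Par D K) (es : List (Sym2 (Fin n))) (u v : Fin n)
    (huv : ∀ e ∈ es, ¬ (u ∈ e ∧ v ∈ e)) :
    Ex D K es (fun h : History n Δ => (∑ c, W D K h u c * W D K h v c - Δ) ^ 2)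
      ≤ K ^ 2 * Δ := by
  classical
  have h1 : (fun h : History n Δ => (∑ c, W D K h u c * W D K h v c - Δ) ^ 2)
      = fun h => ((∑ c, ∑ c', W D K h u c * W D K h v c * (W D K h u c' * W D K h v c'))
        + (-2 * (Δ : ℝ)) * ∑ c, W D K h u c * W D K h v c) + (Δ : ℝ) ^ 2 := by
    ext h
    have : (∑ c, ∑ c', W D K h u c * W D K h v c * (W D K h u c' * W D K h v c'))
        = (∑ c, W D K h u c * W D K h v c) ^ 2 := by
      rw [sq, Finset.sum_mul_sum]
    rw [this]; ring
  rw [h1, Ex_add, Ex_add, Ex_smul, Ex_const, Ex_N1 hP es u v huv, Ex_sum]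
  have h2 : ∀ c : Fin Δ, Ex D K es (fun h => ∑ c', W D K h u c * W D K h v c
      * (W D K h u c' * W D K h v c')) ≤ K ^ 2 + (Δ - 1) := by
    intro c
    rw [Ex_sum, ← Finset.add_sum_erase _ _ (Finset.mem_univ c)]
    refine add_le_add ?_ ?_
    · calc Ex D K es (fun h => W D K h u c * W D K h v c * (W D K h u c * W D K h v c))
          ≤ Ex D K es (fun h => K ^ 2 * (W D K h u c * W D K h v c)) := by
            refine Ex_mono hP es _ _ fun h => ?_
            exact mul_le_mul_of_nonneg_right (B_le hP (W_bd hP h) s(u, v) c)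
              (B_nonneg (W_bd hP h) s(u, v) c)
        _ = K ^ 2 := by rw [Ex_smul, Ex_W2 hP es u v c huv, mul_one]
    · calc _ ≤ ∑ c' ∈ Finset.univ.erase c, (1 : ℝ) :=
            Finset.sum_le_sum fun c' hc' =>
              Ex_W4 hP es u v (Finset.ne_of_mem_erase hc').symm huv
        _ = (Δ : ℝ) - 1 := by
            rw [Finset.sum_const, Finset.card_erase_of_mem (Finset.mem_univ c), Finset.card_univ,
              Fintype.card_fin, nsmul_eq_mul, mul_one]
            have : 1 ≤ Δ := by
              have := c.2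
              omega
            push_cast [this]
            ring
  have h3 : ∑ c : Fin Δ, Ex D K es (fun h => ∑ c', W D K h u c * W D K h v c
      * (W D K h u c' * W D K h v c')) ≤ Δ * (K ^ 2 + (Δ - 1)) := by
    calc _ ≤ ∑ c : Fin Δ, (K ^ 2 + ((Δ : ℝ) - 1)) := Finset.sum_le_sum fun c _ => h2 c
      _ = _ := by simp; ring
  have h4 : (0 : ℝ) ≤ Δ := Nat.cast_nonneg _
  nlinarith

end Pool.Agent.KS6_81.OE
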