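import Pool.Agent.KS6_81.OE.Mom

/-!
The potential argument: for an edge `uv` and a colour `c`, under the law with the density
`W u c * W v c` the sum of the weights of the neighbours of `u` has variance `O (K Δ)`.
-/

open scoped BigOperators
open Finset

namespace Pool.Agent.KS6_81.OE

variable {n Δ : ℕ}

section defs

variable (D K : ℝ)

open Classical in
/-- the weight of `x` for the colour `c`, where the edges at `v` are not counted -/
noncomputable def gw (v : Fin n) (c : Fin Δ) : History n Δ → Fin n → ℝ
  | [] => fun _ => 1
  | (e, o) :: h => fun x =>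
      if x ∈ e ∧ v ∉ e then (if o = some c then 0 else gw v c h x / (1 - pp D K (W D K h) e c))
      else gw v c h x

open Classical in
/-- the value at the other endpoint, `0` if `u` is not on the edge -/
noncomputable def oth (f : Fin n → ℝ) (e : Sym2 (Fin n)) (u : Fin n) : ℝ :=
  if u ∈ e then ∑ x ∈ Finset.univ.filter (fun x => x ≠ u ∧ x ∈ e), f x else 0

/-- sum of the values `gw` of the neighbours of `u` at the arrival of the edges -/
noncomputable def Sg (u v : Fin n) (c : Fin Δ) : History n Δ → ℝ
  | [] => 0
  | (e, _) :: h => Sg u v c h + oth (gw D K v c h) e u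

/-- sum of the squares of the values `gw` of the neighbours of `u` at the arrival of the edges -/
noncomputable def Qg (u v : Fin n) (c : Fin Δ) : History n Δ → ℝ
  | [] => 0
  | (e, _) :: h => Qg u v c h + oth (fun x => gw D K v c h x ^ 2) e u

end defs

variable {D K : ℝ}

lemma oth_mk (f : Fin n → ℝ) {u v : Fin n} (huv : u ≠ v) : oth f s(u, v) u = f v := by
  classical
  unfold oth
  rw [if_pos (Sym2.mem_mk_left u v)]
  have : Finset.univ.filter (fun x => x ≠ u ∧ x ∈ s(u, v)) = {v} := by
    ext x
    simp only [Finset.mem_filter, Finset.mem_univ, true_and, Sym2.mem_iff, Finset.mem_singleton]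
    constructor
    · rintro ⟨h1, h2 | h2⟩
      · exact absurd h2 h1
      · exact h2
    · rintro rfl
      exact ⟨huv.symm, Or.inr rfl⟩
  rw [this, Finset.sum_singleton]

lemma oth_not (f : Fin n → ℝ) {u : Fin n} {e : Sym2 (Fin n)} (hu : u ∉ e) : oth f e u = 0 := by
  unfold oth; rw [if_neg hu]

lemma wt_two (w : Wts n Δ) (e : Sym2 (Fin n)) (c : Fin Δ) (φ : ℝ → ℝ) (t : ℝ) :
    ∑ o, wt D K w e o * φ (if o = some c then 0 else t)
      = pp D K w e c * φ 0 + (1 - pp D K w e c) * φ t := by
  have h1 : ∀ o, wt D K w e o * φ (if o = some c then 0 else t)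
      = (if o = some c then wt D K w e o else 0) * (φ 0 - φ t) + wt D K w e o * φ t := by
    intro o
    split_ifs with h
    · ring
    · ring
  rw [Finset.sum_congr rfl fun o _ => h1 o, Finset.sum_add_distrib, ← Finset.sum_mul,
    ← Finset.sum_mul, wt_sum, Finset.sum_ite_eq' Finset.univ (some c)]
  simp only [Finset.mem_univ, if_true, wt]
  ring

/-- the general potential argument -/
lemma pot_gen (hP : Par D K) (ψ : ℝ → ℝ → ℝ)
    (hψ : ∀ s q a b P : ℝ, 0 ≤ P → P ≤ 1 / 2 → a ^ 2 ≤ 2 * b →
      P * ψ s q + (1 - P) * ψ (s + a * (1 / (1 - P))) (q + b * (1 / (1 - P)) ^ 2)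
        ≤ ψ (s + a) (q + b))
    (u v : Fin n) (huv : u ≠ v) (c : Fin Δ) (es : List (Sym2 (Fin n)))
    (hd : ∀ e ∈ es, ¬ e.IsDiag) (hes : es.Nodup) (huve : s(u, v) ∉ es) (F : Finset (Fin n))
    (hF : ∀ x ∈ F, x ≠ u ∧ x ≠ v ∧ s(u, x) ∉ es) :
    Ex D K es (fun h => W D K h u c * W D K h v c
      * ψ (Sg D K u v c h + ∑ x ∈ F, gw D K v c h x - (dg es u + F.card))
          (Qg D K u v c h + ∑ x ∈ F, gw D K v c h x ^ 2))
      ≤ ψ 0 (dg es u + F.card) := by
  classical
  induction es generalizing F with
  | nil =>
    simp [Ex, W, Sg, Qg, gw, dg]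
  | cons e es ih =>
    have hd' : ∀ e ∈ es, ¬ e.IsDiag := fun e he => hd e (List.mem_cons_of_mem _ he)
    rw [List.nodup_cons] at hes
    have huve' : s(u, v) ∉ es := fun h => huve (List.mem_cons_of_mem _ h)
    by_cases hu : u ∈ e
    · -- an edge at `u`
      obtain ⟨x, hux, rfl⟩ := mem_split hu (hd e List.mem_cons_self)
      have hxv : x ≠ v := by
        rintro rfl
        exact huve List.mem_cons_self
      have hve : v ∉ s(u, x) := by
        rw [Sym2.mem_iff]
        rintro (h | h)
        · exact huv h.symm
        · exact hxv h.symm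
      have hxF : x ∉ F := fun h => (hF x h).2.2 List.mem_cons_self
      have key := ih hd' hes.2 huve' (insert x F) (by
        intro y hy
        rcases Finset.mem_insert.mp hy with rfl | hy
        · exact ⟨hux.symm, hxv, hes.1⟩
        · exact ⟨(hF y hy).1, (hF y hy).2.1, fun h => (hF y hy).2.2 (List.mem_cons_of_mem _ h)⟩)
      have hdg : (dg (s(u, x) :: es) u : ℝ) = dg es u + 1 := by
        simp [dg]
      rw [Finset.card_insert_of_notMem hxF] at key
      push_cast at key
      have e1 : ψ 0 ((dg (s(u, x) :: es) u : ℝ) + F.card) = ψ 0 (dg es u + (F.card + 1)) := by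
        congr 1; rw [hdg]; ring
      rw [e1]
      refine le_trans (le_of_eq ?_) key
      simp only [Ex]
      congr 1
      ext h
      have hgF : ∀ o, ∀ y ∈ F, gw D K v c ((s(u, x), o) :: h) y = gw D K v c h y := by
        intro o y hy
        simp only [gw]
        rw [if_neg]
        rintro ⟨hy1, -⟩
        rcases Sym2.mem_iff.mp hy1 with rfl | rfl
        · exact (hF _ hy).1 rfl
        · exact hxF hy
      have hstep : ∀ o, wt D K (W D K h) s(u, x) o * (W D K ((s(u, x), o) :: h) u c
          * W D K ((s(u, x), o) :: h) v c
          * ψ (Sg D K u v c ((s(u, x), o) :: h) + ∑ y ∈ F, gw D K v c ((s(u, x), o) :: h) y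
              - (dg (s(u, x) :: es) u + F.card))
            (Qg D K u v c ((s(u, x), o) :: h) + ∑ y ∈ F, gw D K v c ((s(u, x), o) :: h) y ^ 2))
          = (wt D K (W D K h) s(u, x) o * upd D K (W D K h) s(u, x) o u c) * (W D K h v c
          * ψ (Sg D K u v c h + ∑ y ∈ insert x F, gw D K v c h y - (dg es u + (F.card + 1)))
            (Qg D K u v c h + ∑ y ∈ insert x F, gw D K v c h y ^ 2)) := by
        intro o
        have h1 : W D K ((s(u, x), o) :: h) v c = W D K h v c := by
          simp only [W]
          unfold upd
          rw [if_neg hve]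
        have h2 : ∑ y ∈ F, gw D K v c ((s(u, x), o) :: h) y = ∑ y ∈ F, gw D K v c h y :=
          Finset.sum_congr rfl fun y hy => hgF o y hy
        have h3 : ∑ y ∈ F, gw D K v c ((s(u, x), o) :: h) y ^ 2 = ∑ y ∈ F, gw D K v c h y ^ 2 :=
          Finset.sum_congr rfl fun y hy => by rw [hgF o y hy]
        rw [h1, h2, h3, Finset.sum_insert hxF, Finset.sum_insert hxF, hdg]
        simp only [Sg, Qg, oth_mk _ hux, W]
        have e2 : Sg D K u v c h + gw D K v c h x + ∑ y ∈ F, gw D K v c h y
              - (↑(dg es u) + 1 + ↑F.card)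
            = Sg D K u v c h + (gw D K v c h x + ∑ y ∈ F, gw D K v c h y)
              - (↑(dg es u) + (↑F.card + 1)) := by ring
        have e3 : Qg D K u v c h + gw D K v c h x ^ 2 + ∑ y ∈ F, gw D K v c h y ^ 2
            = Qg D K u v c h + (gw D K v c h x ^ 2 + ∑ y ∈ F, gw D K v c h y ^ 2) := by ring
        rw [e2, e3]
        ring
      rw [Finset.sum_congr rfl fun o _ => hstep o, ← Finset.sum_mul, step_one hP (W_bd hP h)]
      ring
    · have hdg : dg (e :: es) u = dg es u := by simp [dg, hu]
      have hF' : ∀ x ∈ F, x ≠ u ∧ x ≠ v ∧ s(u, x) ∉ es := fun x hx =>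
        ⟨(hF x hx).1, (hF x hx).2.1, fun h => (hF x hx).2.2 (List.mem_cons_of_mem _ h)⟩
      have key := ih hd' hes.2 huve' F hF'
      rw [hdg]
      refine le_trans ?_ key
      simp only [Ex]
      refine Ex_mono hP es _ _ fun h => ?_
      have hSg : ∀ o, Sg D K u v c ((e, o) :: h) = Sg D K u v c h := by
        intro o
        simp only [Sg, oth_not _ hu, add_zero]
      have hQg : ∀ o, Qg D K u v c ((e, o) :: h) = Qg D K u v c h := by
        intro o
        simp only [Qg, oth_not _ hu, add_zero]
      have hWu : ∀ o, W D K ((e, o) :: h) u c = W D K h u c := by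
        intro o
        simp only [W]
        unfold upd
        rw [if_neg hu]
      by_cases hv : v ∈ e
      · -- an edge at `v`
        have hgw : ∀ o y, gw D K v c ((e, o) :: h) y = gw D K v c h y := by
          intro o y
          simp only [gw]
          rw [if_neg]
          rintro ⟨-, h⟩
          exact h hv
        have hstep : ∀ o, wt D K (W D K h) e o * (W D K ((e, o) :: h) u c
            * W D K ((e, o) :: h) v c
            * ψ (Sg D K u v c ((e, o) :: h) + ∑ y ∈ F, gw D K v c ((e, o) :: h) y
                - (dg es u + F.card))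
              (Qg D K u v c ((e, o) :: h) + ∑ y ∈ F, gw D K v c ((e, o) :: h) y ^ 2))
            = (wt D K (W D K h) e o * upd D K (W D K h) e o v c) * (W D K h u c
            * ψ (Sg D K u v c h + ∑ y ∈ F, gw D K v c h y - (dg es u + F.card))
              (Qg D K u v c h + ∑ y ∈ F, gw D K v c h y ^ 2)) := by
          intro o
          rw [hSg, hQg, hWu]
          simp only [hgw, W]
          ring
        rw [Finset.sum_congr rfl fun o _ => hstep o, ← Finset.sum_mul, step_one hP (W_bd hP h)]
        apply le_of_eq
        ring
      · -- an edge away from `u` and `v`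
        have hWv : ∀ o, W D K ((e, o) :: h) v c = W D K h v c := by
          intro o
          simp only [W]
          unfold upd
          rw [if_neg hv]
        set P := pp D K (W D K h) e c with hPdef
        have hP0 : 0 ≤ P := pp_nonneg hP (W_bd hP h) e c
        have hP1 : P ≤ 1 / 2 := pp_le_half hP (W_bd hP h) e c
        have hgw : ∀ o y, gw D K v c ((e, o) :: h) y
            = if y ∈ e then gw D K v c h y * (if o = some c then 0 else 1 / (1 - P))
              else gw D K v c h y := by
          intro o y
          simp only [gw, hv, not_false_eq_true, and_true]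
          split_ifs
          · rw [mul_zero]
          · rw [hPdef]; ring
          · rfl
        set a := ∑ y ∈ F.filter (· ∈ e), gw D K v c h y with ha
        set b := ∑ y ∈ F.filter (· ∈ e), gw D K v c h y ^ 2 with hb
        set a' := ∑ y ∈ F.filter (· ∉ e), gw D K v c h y with ha'
        set b' := ∑ y ∈ F.filter (· ∉ e), gw D K v c h y ^ 2 with hb'
        have hab : a ^ 2 ≤ 2 * b := by
          have h1 : a ^ 2 ≤ ((F.filter (· ∈ e)).card : ℝ) * b := sq_sum_le_card_mul_sum_sq
          have h2 : (F.filter (· ∈ e)).card ≤ 2 := by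
            induction e using Sym2.ind with
            | _ x y =>
              calc (F.filter (· ∈ s(x, y))).card ≤ ({x, y} : Finset (Fin n)).card := by
                    apply Finset.card_le_card
                    intro z hz
                    rw [Finset.mem_filter, Sym2.mem_iff] at hz
                    simpa using hz.2
                _ ≤ 2 := Finset.card_le_two
          have h3 : 0 ≤ b := Finset.sum_nonneg fun _ _ => sq_nonneg _
          have h4 : ((F.filter (· ∈ e)).card : ℝ) ≤ 2 := by exact_mod_cast h2
          calc a ^ 2 ≤ ((F.filter (· ∈ e)).card : ℝ) * b := h1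
            _ ≤ 2 * b := mul_le_mul_of_nonneg_right h4 h3
        have hsum1 : ∑ y ∈ F, gw D K v c h y = a + a' := by
          rw [ha, ha', Finset.sum_filter_add_sum_filter_not]
        have hsum2 : ∑ y ∈ F, gw D K v c h y ^ 2 = b + b' := by
          rw [hb, hb', Finset.sum_filter_add_sum_filter_not]
        have hsum3 : ∀ o, ∑ y ∈ F, gw D K v c ((e, o) :: h) y
            = a * (if o = some c then 0 else 1 / (1 - P)) + a' := by
          intro o
          rw [← Finset.sum_filter_add_sum_filter_not F (· ∈ e), ha, ha', Finset.sum_mul]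
          congr 1
          · refine Finset.sum_congr rfl fun y hy => ?_
            rw [hgw, if_pos (Finset.mem_filter.mp hy).2]
          · refine Finset.sum_congr rfl fun y hy => ?_
            rw [hgw, if_neg (Finset.mem_filter.mp hy).2]
        have hsum4 : ∀ o, ∑ y ∈ F, gw D K v c ((e, o) :: h) y ^ 2
            = b * (if o = some c then 0 else 1 / (1 - P)) ^ 2 + b' := by
          intro o
          rw [← Finset.sum_filter_add_sum_filter_not F (· ∈ e), hb, hb', Finset.sum_mul]
          congr 1
          · refine Finset.sum_congr rfl fun y hy => ?_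
            rw [hgw, if_pos (Finset.mem_filter.mp hy).2, mul_pow]
          · refine Finset.sum_congr rfl fun y hy => ?_
            rw [hgw, if_neg (Finset.mem_filter.mp hy).2]
        have hstep : ∀ o, wt D K (W D K h) e o * (W D K ((e, o) :: h) u c
            * W D K ((e, o) :: h) v c
            * ψ (Sg D K u v c ((e, o) :: h) + ∑ y ∈ F, gw D K v c ((e, o) :: h) y
                - (dg es u + F.card))
              (Qg D K u v c ((e, o) :: h) + ∑ y ∈ F, gw D K v c ((e, o) :: h) y ^ 2))
            = (wt D K (W D K h) e o * (fun t => ψ (Sg D K u v c h + a' - (dg es u + F.card) + a * t)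
              (Qg D K u v c h + b' + b * t ^ 2)) (if o = some c then 0 else 1 / (1 - P)))
              * (W D K h u c * W D K h v c) := by
          intro o
          rw [hSg, hQg, hWu, hWv, hsum3, hsum4]
          have e2 : Sg D K u v c h + (a * (if o = some c then 0 else 1 / (1 - P)) + a')
              - (↑(dg es u) + ↑F.card)
              = Sg D K u v c h + a' - (dg es u + F.card)
                + a * (if o = some c then 0 else 1 / (1 - P)) := by ring
          have e3 : Qg D K u v c h + (b * (if o = some c then 0 else 1 / (1 - P)) ^ 2 + b')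
              = Qg D K u v c h + b' + b * (if o = some c then 0 else 1 / (1 - P)) ^ 2 := by ring
          rw [e2, e3]
          ring
        rw [Finset.sum_congr rfl fun o _ => hstep o, ← Finset.sum_mul,
          wt_two (W D K h) e c (fun t => ψ (Sg D K u v c h + a' - (dg es u + F.card) + a * t)
              (Qg D K u v c h + b' + b * t ^ 2)) (1 / (1 - P)), hsum1, hsum2]
        have hw0 : 0 ≤ W D K h u c * W D K h v c :=
          mul_nonneg (W_bd hP h u c).1 (W_bd hP h v c).1
        rw [mul_comm]
        apply mul_le_mul_of_nonneg_left _ hw0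
        have h5 := hψ (Sg D K u v c h + a' - (dg es u + F.card)) (Qg D K u v c h + b') a b P
          hP0 hP1 hab
        simp only [mul_zero, add_zero, ne_eq, OfNat.ofNat_ne_zero, not_false_eq_true, zero_pow]
        have e4 : Sg D K u v c h + (a + a') - (↑(dg es u) + ↑F.card)
            = Sg D K u v c h + a' - (dg es u + F.card) + a := by ring
        have e5 : Qg D K u v c h + (b + b') = Qg D K u v c h + b' + b := by ring
        rw [e4, e5]
        exact h5

end Pool.Agent.KS6_81.OE
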