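import Pool.Agent.KS6_81.OE.Pot

/-!
The variance of the sum of the weights of the neighbours of `u`, under the law with the density
`W u c * W v c`.
-/

open scoped BigOperators
open Finset

namespace Pool.Agent.KS6_81.OE

variable {n Δ : ℕ} {D K : ℝ}

lemma gw_nonneg (hP : Par D K) (v : Fin n) (c : Fin Δ) (h : History n Δ) (x : Fin n) :
    0 ≤ gw D K v c h x := by
  induction h with
  | nil => simp [gw]
  | cons a h ih =>
    obtain ⟨e, o⟩ := a
    simp only [gw]
    split_ifs
    · exact le_rfl
    · exact div_nonneg ih (one_sub_pp_pos hP (W_bd hP h) e c).le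
    · exact ih

lemma oth_nonneg (f : Fin n → ℝ) (hf : ∀ x, 0 ≤ f x) (e : Sym2 (Fin n)) (u : Fin n) :
    0 ≤ oth f e u := by
  unfold oth
  split_ifs
  · exact Finset.sum_nonneg fun x _ => hf x
  · exact le_rfl

lemma Sg_nonneg (hP : Par D K) (u v : Fin n) (c : Fin Δ) (h : History n Δ) :
    0 ≤ Sg D K u v c h := by
  induction h with
  | nil => simp [Sg]
  | cons a h ih =>
    obtain ⟨e, o⟩ := a
    simp only [Sg]
    exact add_nonneg ih (oth_nonneg _ (gw_nonneg hP v c h) e u)

lemma le_div_one_sub {a p : ℝ} (ha : 0 ≤ a) (hp : 0 ≤ p) (hp1 : 0 < 1 - p) : a ≤ a / (1 - p) := by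
  rw [le_div_iff₀ hp1]
  nlinarith

lemma W_mul_gw (hP : Par D K) (v : Fin n) (c : Fin Δ) (h : History n Δ) (x : Fin n) :
    W D K h v c * gw D K v c h x ≤ W D K h v c * W D K h x c := by
  induction h with
  | nil => simp [gw, W]
  | cons a h ih =>
    obtain ⟨e, o⟩ := a
    have hw := W_bd (D := D) (K := K) hP h
    have hp0 := pp_nonneg hP hw e c
    have hp1 := one_sub_pp_pos hP hw e c
    by_cases hv : v ∈ e
    · have h1 : gw D K v c ((e, o) :: h) x = gw D K v c h x := by
        simp only [gw]
        rw [if_neg]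
        rintro ⟨-, h2⟩
        exact h2 hv
      rw [h1]
      simp only [W]
      unfold upd
      rw [if_pos hv]
      by_cases ho : o = some c
      · simp [ho]
      rw [if_neg ho]
      by_cases hx : x ∈ e
      · rw [if_pos hx, if_neg ho, div_mul_eq_mul_div, div_mul_eq_mul_div]
        apply div_le_div_of_nonneg_right _ hp1.le
        refine ih.trans (mul_le_mul_of_nonneg_left ?_ (hw v c).1)
        exact le_div_one_sub (hw x c).1 hp0 hp1
      · rw [if_neg hx, div_mul_eq_mul_div, div_mul_eq_mul_div]
        exact div_le_div_of_nonneg_right ih hp1.le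
    · simp only [gw, W]
      unfold upd
      rw [if_neg hv]
      by_cases hx : x ∈ e
      · simp only [hx, hv, not_false_eq_true, and_self, if_true]
        split_ifs
        · simp
        · rw [mul_div_assoc', mul_div_assoc']
          exact div_le_div_of_nonneg_right ih hp1.le
      · simp only [hx, false_and, if_false]
        exact ih

lemma W_mul_Qg (hP : Par D K) (u v : Fin n) (c : Fin Δ) (h : History n Δ)
    (hd : ∀ a ∈ h, ¬ a.1.IsDiag) (huv : s(u, v) ∉ h.map Prod.fst) :
    W D K h v c * Qg D K u v c h ≤ K * (W D K h v c * Sg D K u v c h) := by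
  induction h with
  | nil => simp [Qg, Sg]
  | cons a h ih =>
    obtain ⟨e, o⟩ := a
    have hw := W_bd (D := D) (K := K) hP h
    have hp1 := one_sub_pp_pos hP hw e c
    have ih' := ih (fun a ha => hd a (List.mem_cons_of_mem _ ha))
      (fun h1 => huv (List.mem_cons_of_mem _ h1))
    by_cases hu : u ∈ e
    · obtain ⟨x, hux, rfl⟩ := mem_split hu (hd _ List.mem_cons_self)
      have hxv : x ≠ v := by
        rintro rfl
        exact huv List.mem_cons_self
      have huv2 : u ≠ v ∨ u = v := ne_or_eq u v
      simp only [Qg, Sg, oth_mk _ hux]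
      by_cases hv : v ∈ s(u, x)
      · -- then `v = u`
        have hvu : v = u := by
          rcases Sym2.mem_iff.mp hv with h1 | h1
          · exact h1
          · exact absurd h1.symm hxv
        subst hvu
        simp only [W]
        unfold upd
        rw [if_pos hv]
        split_ifs
        · simp
        · have h1 : W D K h v c * gw D K v c h x ≤ W D K h v c * K :=
            (W_mul_gw hP v c h x).trans (mul_le_mul_of_nonneg_left (hw x c).2 (hw v c).1)
          have h2 : W D K h v c * gw D K v c h x ^ 2 ≤ K * (W D K h v c * gw D K v c h x) := by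
            have := mul_le_mul_of_nonneg_right h1 (gw_nonneg hP v c h x)
            nlinarith
          rw [div_mul_eq_mul_div, div_mul_eq_mul_div, mul_div_assoc']
          apply div_le_div_of_nonneg_right _ hp1.le
          nlinarith
      · have h0 : W D K ((s(u, x), o) :: h) v c = W D K h v c := by
          simp only [W]
          unfold upd
          rw [if_neg hv]
        rw [h0]
        have h1 : W D K h v c * gw D K v c h x ≤ W D K h v c * K :=
          (W_mul_gw hP v c h x).trans (mul_le_mul_of_nonneg_left (hw x c).2 (hw v c).1)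
        have h2 : W D K h v c * gw D K v c h x ^ 2 ≤ K * (W D K h v c * gw D K v c h x) := by
          have := mul_le_mul_of_nonneg_right h1 (gw_nonneg hP v c h x)
          nlinarith
        nlinarith
    · simp only [Qg, Sg, oth_not _ hu, add_zero, W]
      unfold upd
      split_ifs
      · simp
      · rw [div_mul_eq_mul_div, div_mul_eq_mul_div, mul_div_assoc']
        exact div_le_div_of_nonneg_right ih' hp1.le
      · exact ih'

lemma W_eq_gw (v : Fin n) (c : Fin Δ) (h : History n Δ) (x : Fin n)
    (hxv : x ≠ v) (hx : s(v, x) ∉ h.map Prod.fst) : W D K h x c = gw D K v c h x := by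
  induction h with
  | nil => simp [gw, W]
  | cons a h ih =>
    obtain ⟨e, o⟩ := a
    have ih' := ih (fun h1 => hx (List.mem_cons_of_mem _ h1))
    simp only [gw, W]
    unfold upd
    by_cases hxe : x ∈ e
    · have hve : v ∉ e := by
        intro hve
        apply hx
        rw [← (Sym2.mem_and_mem_iff hxv.symm).mp ⟨hve, hxe⟩]
        exact List.mem_cons_self
      simp only [hxe, hve, not_false_eq_true, and_self, if_true]
      rw [ih']
    · simp only [hxe, false_and, if_false]
      exact ih'

lemma W_le_gw (hP : Par D K) (v : Fin n) (c : Fin Δ) (h : History n Δ) (x : Fin n)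
    (hxv : x ≠ v) (hnd : (h.map Prod.fst).Nodup) :
    (1 - K ^ 2 / D) * W D K h x c ≤ gw D K v c h x := by
  induction h with
  | nil =>
    simp only [gw, W, mul_one]
    linarith [kap_nonneg hP]
  | cons a h ih =>
    obtain ⟨e, o⟩ := a
    have hw := W_bd (D := D) (K := K) hP h
    have hp0 := pp_nonneg hP hw e c
    have hp1 := one_sub_pp_pos hP hw e c
    have hpk := pp_le hP hw e c
    have hk1 := kap_le hP
    simp only [List.map_cons, List.nodup_cons] at hnd
    by_cases he : x ∈ e ∧ v ∈ e
    · have he' : e = s(v, x) := (Sym2.mem_and_mem_iff hxv.symm).mp ⟨he.2, he.1⟩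
      have h1 := W_eq_gw (D := D) (K := K) v c h x hxv (by rw [← he']; exact hnd.1)
      have h2 : gw D K v c ((e, o) :: h) x = gw D K v c h x := by
        simp only [gw]
        rw [if_neg]
        rintro ⟨-, h2⟩
        exact h2 he.2
      rw [h2, ← h1]
      simp only [W]
      unfold upd
      rw [if_pos he.1]
      split_ifs
      · rw [mul_zero]; exact (hw x c).1
      · rw [mul_div_assoc', div_le_iff₀ hp1, mul_comm]
        exact mul_le_mul_of_nonneg_left (by linarith) (hw x c).1
    · have ih' := ih hnd.2
      simp only [gw, W]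
      unfold upd
      by_cases hxe : x ∈ e
      · have hve : v ∉ e := fun h1 => he ⟨hxe, h1⟩
        simp only [hxe, hve, not_false_eq_true, and_self, if_true]
        split_ifs
        · simp
        · rw [mul_div_assoc']
          exact div_le_div_of_nonneg_right ih' hp1.le
      · simp only [hxe, false_and, if_false]
        exact ih'

lemma S_le_Sg (hP : Par D K) (u v : Fin n) (c : Fin Δ) (h : History n Δ)
    (hd : ∀ a ∈ h, ¬ a.1.IsDiag) (huv : s(u, v) ∉ h.map Prod.fst)
    (hnd : (h.map Prod.fst).Nodup) :
    (1 - K ^ 2 / D) * S D K h u c ≤ Sg D K u v c h := by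
  induction h with
  | nil => simp [S, Sg]
  | cons a h ih =>
    obtain ⟨e, o⟩ := a
    have hnd' := hnd
    simp only [List.map_cons, List.nodup_cons] at hnd'
    have ih' := ih (fun a ha => hd a (List.mem_cons_of_mem _ ha))
      (fun h1 => huv (List.mem_cons_of_mem _ h1)) hnd'.2
    by_cases hu : u ∈ e
    · obtain ⟨x, hux, rfl⟩ := mem_split hu (hd _ List.mem_cons_self)
      have hxv : x ≠ v := by
        rintro rfl
        exact huv List.mem_cons_self
      simp only [S, Sg, oth_mk _ hux, inc_mk _ hux]
      have := W_le_gw hP v c h x hxv hnd'.2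
      linarith
    · simp only [S, Sg, oth_not _ hu, inc_not _ hu, add_zero]
      exact ih'

lemma Ex_map_nd {h : History n Δ} {es : List (Sym2 (Fin n))} (hh : h.map Prod.fst = es)
    (hd : ∀ e ∈ es, ¬ e.IsDiag) : ∀ a ∈ h, ¬ a.1.IsDiag := by
  intro a ha
  apply hd
  rw [← hh]
  exact List.mem_map_of_mem ha

/-- the variance under the law with the density `W u c * W v c` -/
lemma Var_Sg (hP : Par D K) (u v : Fin n) (huv : u ≠ v) (c : Fin Δ) (es : List (Sym2 (Fin n)))
    (hd : ∀ e ∈ es, ¬ e.IsDiag) (hes : es.Nodup) (huve : s(u, v) ∉ es) :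
    Ex D K es (fun h => W D K h u c * W D K h v c * (Sg D K u v c h - dg es u) ^ 2)
      ≤ 2 * K * dg es u := by
  have hK : 0 < K := by linarith [hP.hK]
  have hcom : ∀ e ∈ es, ¬ (u ∈ e ∧ v ∈ e) := by
    intro e he h1
    rw [(Sym2.mem_and_mem_iff huv).mp h1] at he
    exact huve he
  have h1 := pot_gen hP (fun s q => s ^ 2 - 2 * q) (by
    intro s q a b P hP0 hP1 hab
    have h1P : 0 < 1 - P := by linarith
    have e1 : P * (s ^ 2 - 2 * q) + (1 - P) * ((s + a * (1 / (1 - P))) ^ 2
        - 2 * (q + b * (1 / (1 - P)) ^ 2))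
        = s ^ 2 + 2 * s * a - 2 * q - (2 * b - a ^ 2) * (1 / (1 - P)) := by
      field_simp
      ring
    rw [e1]
    have h2 : 1 ≤ 1 / (1 - P) := by
      rw [le_div_iff₀ h1P]; linarith
    nlinarith [mul_le_mul_of_nonneg_left h2 (by linarith : 0 ≤ 2 * b - a ^ 2)])
    u v huv c es hd hes huve ∅ (by simp)
  have h2 := pot_gen hP (fun s _ => s) (by
    intro s q a b P hP0 hP1 hab
    have h1P : 0 < 1 - P := by linarith
    apply le_of_eq
    field_simp
    ring)
    u v huv c es hd hes huve ∅ (by simp)
  simp only [Finset.sum_empty, add_zero, Finset.card_empty, Nat.cast_zero] at h1 h2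
  have hW2 := Ex_W2 hP es u v c hcom
  have h3 : Ex D K es (fun h => W D K h u c * W D K h v c * Sg D K u v c h) ≤ dg es u := by
    have e2 : (fun h => W D K h u c * W D K h v c * (Sg D K u v c h - dg es u))
        = fun h : History n Δ => W D K h u c * W D K h v c * Sg D K u v c h
          - dg es u * (W D K h u c * W D K h v c) := by
      ext h; ring
    rw [e2, Ex_sub, Ex_smul, hW2] at h2
    linarith
  have h4 : Ex D K es (fun h => W D K h u c * W D K h v c * Qg D K u v c h)
      ≤ K * Ex D K es (fun h => W D K h u c * W D K h v c * Sg D K u v c h) := by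
    rw [← Ex_smul]
    refine Ex_mono' hP es _ _ fun h hh => ?_
    have h5 := W_mul_Qg hP u v c h (Ex_map_nd hh hd) (by rw [hh]; exact huve)
    have h6 := mul_le_mul_of_nonneg_left h5 (W_bd hP h u c).1
    calc W D K h u c * W D K h v c * Qg D K u v c h
        = W D K h u c * (W D K h v c * Qg D K u v c h) := by ring
      _ ≤ W D K h u c * (K * (W D K h v c * Sg D K u v c h)) := h6
      _ = _ := by ring
  have e3 : (fun h => W D K h u c * W D K h v c
        * ((Sg D K u v c h - dg es u) ^ 2 - 2 * Qg D K u v c h))
      = fun h : History n Δ => W D K h u c * W D K h v c * (Sg D K u v c h - dg es u) ^ 2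
        - 2 * (W D K h u c * W D K h v c * Qg D K u v c h) := by
    ext h; ring
  rw [e3, Ex_sub, Ex_smul] at h1
  have hd0 : (0 : ℝ) ≤ dg es u := Nat.cast_nonneg _
  have h7 := mul_le_mul_of_nonneg_left h3 hK.le
  norm_num at h1
  nlinarith

end Pool.Agent.KS6_81.OE
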